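import Mathlib

/-!
# Definitions for the Rokhlin property problem

Finite group actions on unital `C*`-algebras, the Rokhlin property, stable finiteness and a
characterisation of the minimal (spatial) tensor product of two unital `C*`-algebras.
-/

open scoped TensorProduct

namespace Pool.Agent.Work.MP_7f0ddb_an

/-- The **Rokhlin property** of an action `σ : K → Aut(D)` of a finite group on a unital
`C*`-algebra: for every finite `F ⊆ D` and `ε > 0` there are mutually orthogonal projections
`e k`, `k : K`, with `‖σ k (e l) - e (k * l)‖ < ε`, `‖e k * a - a * e k‖ < ε` for `a ∈ F` and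
`∑ k, e k = 1`. -/
def RokhlinProperty {D K : Type} [CStarAlgebra D] [Group K] [Fintype K]
    (σ : K →* (D ≃⋆ₐ[ℂ] D)) : Prop :=
  ∀ (F : Finset D) (ε : ℝ), 0 < ε → ∃ e : K → D,
    (∀ k, IsStarProjection (e k)) ∧ (∀ k l, k ≠ l → e k * e l = 0) ∧
    (∀ k l, ‖σ k (e l) - e (k * l)‖ < ε) ∧ (∀ k, ∀ a ∈ F, ‖e k * a - a * e k‖ < ε) ∧
    ∑ k, e k = 1

/-- A unital `C*`-algebra is **stably finite** if every isometry in every matrix algebra over it
is a unitary. -/
def StablyFinite (D : Type) [CStarAlgebra D] : Prop :=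
  ∀ (n : ℕ) (v : Matrix (Fin n) (Fin n) D), star v * v = 1 → v * star v = 1

/-- `D`, together with the unital `*`-homomorphisms `i : A → D` and `j : B → D`, is the **minimal
(spatial) tensor product** of the unital `C*`-algebras `A` and `B` (with `i a = a ⊗ 1`,
`j b = 1 ⊗ b`): the ranges of `i` and `j` commute, the products `i a * j b` span a dense subspace
of `D`, and there are faithful representations `π`, `ρ` of `A` and `B` on Hilbert spaces
such that the norm of `∑ i (a k) * j (b k)` is the operator norm of `∑ π (a k) ⊗ ρ (b k)` on the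
tensor product of the two Hilbert spaces. -/
structure IsMinTensorProduct {A B D : Type} [CStarAlgebra A] [CStarAlgebra B] [CStarAlgebra D]
    (i : A →⋆ₐ[ℂ] D) (j : B →⋆ₐ[ℂ] D) : Prop where
  commute : ∀ a b, i a * j b = j b * i a
  dense : (Submodule.span ℂ {x | ∃ a b, x = i a * j b}).topologicalClosure = ⊤
  norm_eq : ∃ (H K : Type) (_ : NormedAddCommGroup H) (_ : InnerProductSpace ℂ H)
    (_ : CompleteSpace H) (_ : NormedAddCommGroup K) (_ : InnerProductSpace ℂ K)
    (_ : CompleteSpace K) (π : A →⋆ₐ[ℂ] (H →L[ℂ] H)) (ρ : B →⋆ₐ[ℂ] (K →L[ℂ] K)),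
    Function.Injective π ∧ Function.Injective ρ ∧
    ∀ (n : ℕ) (a : Fin n → A) (b : Fin n → B),
      ‖∑ k, i (a k) * j (b k)‖ = ‖∑ k, TensorProduct.mapL (π (a k)) (ρ (b k))‖

end Pool.Agent.Work.MP_7f0ddb_an
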