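import Mathlib

open scoped ENNReal InnerProductSpace ComplexConjugate

set_option linter.unusedSectionVars false

namespace Pool.Agent.Work.MP_7f0ddb_an

/-- The Hilbert space `ℓ²(I)`. -/
abbrev L2 (I : Type*) : Type _ := lp (fun _ : I => ℂ) 2

variable {I : Type*}

theorem L2.memℓp_iff {f : I → ℂ} : Memℓp f 2 ↔ Summable fun i => ‖f i‖ ^ 2 := by
  rw [memℓp_gen_iff (by norm_num)]
  norm_num

theorem L2.summable (f : L2 I) : Summable fun i => ‖f i‖ ^ 2 := L2.memℓp_iff.1 (lp.memℓp f)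

theorem L2.norm_sq (f : L2 I) : ‖f‖ ^ 2 = ∑' i, ‖f i‖ ^ 2 := by
  have h := lp.norm_rpow_eq_tsum (p := 2) (by norm_num) f
  norm_num at h
  exact h

/-- Weighted permutation of `ℓ²(I)`: `(W e c ξ) i = c i * ξ (e⁻¹ i)`. -/
noncomputable def W (e : I ≃ I) (c : I → Circle) : L2 I →L[ℂ] L2 I :=
  LinearMap.mkContinuous
    { toFun := fun ξ => ⟨fun i => (c i : ℂ) * ξ (e.symm i), L2.memℓp_iff.2 (by
        simp only [norm_mul, Circle.norm_coe, one_mul]
        exact (e.symm.summable_iff (f := fun i => ‖ξ i‖ ^ 2)).2 ξ.summable)⟩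
      map_add' := fun ξ η => by
        ext i
        exact mul_add _ _ _
      map_smul' := fun a ξ => by
        ext i
        show (c i : ℂ) * (a * ξ (e.symm i)) = a * ((c i : ℂ) * ξ (e.symm i))
        ring }
    1 (fun ξ => by
      rw [one_mul]
      refine (sq_le_sq₀ (norm_nonneg _) (norm_nonneg _)).1 (le_of_eq ?_)
      rw [L2.norm_sq, L2.norm_sq]
      simp only [LinearMap.coe_mk, AddHom.coe_mk, norm_mul, Circle.norm_coe, one_mul]
      exact e.symm.tsum_eq (fun i => ‖ξ i‖ ^ 2))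

@[simp] theorem W_apply (e : I ≃ I) (c : I → Circle) (ξ : L2 I) (i : I) :
    W e c ξ i = (c i : ℂ) * ξ (e.symm i) := rfl

theorem norm_W_le (e : I ≃ I) (c : I → Circle) : ‖W e c‖ ≤ 1 :=
  LinearMap.mkContinuous_norm_le _ zero_le_one _

theorem W_mul (e e' : I ≃ I) (c c' : I → Circle) :
    W e c * W e' c' = W (e'.trans e) (fun i => c i * c' (e.symm i)) := by
  ext ξ i
  simp [mul_assoc]

theorem W_one : W (Equiv.refl I) (fun _ => 1) = 1 := by
  ext ξ i
  simp

theorem star_W (e : I ≃ I) (c : I → Circle) :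
    star (W e c) = W e.symm (fun i => (c (e i))⁻¹) := by
  rw [ContinuousLinearMap.star_eq_adjoint]
  symm
  rw [ContinuousLinearMap.eq_adjoint_iff]
  intro ξ η
  rw [lp.inner_eq_tsum, lp.inner_eq_tsum, ← e.tsum_eq (fun i => ⟪ξ i, (W e c η) i⟫_ℂ)]
  refine tsum_congr fun i => ?_
  simp only [W_apply, Equiv.symm_symm, RCLike.inner_apply, map_mul, Equiv.symm_apply_apply]
  rw [Circle.coe_inv_eq_conj, Complex.conj_conj]
  ring

/-- The basis vector `δ_i`. -/
noncomputable def δ [DecidableEq I] (i : I) : L2 I := lp.single 2 i (1 : ℂ)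

theorem δ_apply [DecidableEq I] (i j : I) : δ i j = if j = i then (1 : ℂ) else 0 := by
  rw [δ, lp.single_apply]
  by_cases h : j = i
  · subst h; simp
  · simp [h]

theorem inner_δ [DecidableEq I] (i : I) (ξ : L2 I) : ⟪δ i, ξ⟫_ℂ = ξ i := by
  rw [δ, lp.inner_single_left]
  simp

theorem W_δ [DecidableEq I] (e : I ≃ I) (c : I → Circle) (i : I) :
    W e c (δ i) = (c (e i) : ℂ) • δ (e i) := by
  ext j
  simp only [W_apply, lp.coeFn_smul, Pi.smul_apply, smul_eq_mul, δ_apply]
  by_cases h : j = e i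
  · subst h; simp
  · have h' : e.symm j ≠ i := fun h' => h (by rw [← h']; simp)
    simp [h, h']

/-- Two bounded operators which agree on the basis vectors are equal. -/
theorem ext_δ [DecidableEq I] {E : Type*} [NormedAddCommGroup E] [NormedSpace ℂ E]
    {S T : L2 I →L[ℂ] E} (h : ∀ i, S (δ i) = T (δ i)) : S = T := by
  refine lp.ext_continuousLinearMap (by norm_num) fun i => ?_
  ext
  simpa [δ] using h i

end Pool.Agent.Work.MP_7f0ddb_an
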