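import Mathlib
import Pool.Agent.Work.MP_7f0ddb_an.Weighted

open scoped ENNReal InnerProductSpace ComplexConjugate

set_option linter.unusedSectionVars false

namespace Pool.Agent.Work.MP_7f0ddb_an

theorem mulA {I : Type*} (S T : L2 I →L[ℂ] L2 I) (ξ : L2 I) : (S * T) ξ = S (T ξ) := rfl

theorem smulA {I : Type*} (c : ℂ) (T : L2 I →L[ℂ] L2 I) (ξ : L2 I) (i : I) :
    (c • T) ξ i = c * T ξ i := rfl

/-- A circle-valued bicharacter on an abelian group. -/
structure Bichar (Γ : Type*) [AddCommGroup Γ] where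
  toFun : Γ → Γ → Circle
  add_left : ∀ g g' h, toFun (g + g') h = toFun g h * toFun g' h
  add_right : ∀ g h h', toFun g (h + h') = toFun g h * toFun g h'

variable {Γ : Type*} [AddCommGroup Γ] [DecidableEq Γ] (σ : Bichar Γ)

namespace Bichar

instance : CoeFun (Bichar Γ) fun _ => Γ → Γ → Circle := ⟨Bichar.toFun⟩

theorem zero_left (h : Γ) : σ 0 h = 1 := by
  have := σ.add_left 0 0 h
  rw [add_zero] at this
  exact (mul_eq_left.1 this.symm)

theorem zero_right (h : Γ) : σ h 0 = 1 := by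
  have := σ.add_right h 0 0
  rw [add_zero] at this
  exact (mul_eq_left.1 this.symm)

theorem neg_left (g h : Γ) : σ (-g) h = (σ g h)⁻¹ := by
  rw [eq_inv_iff_mul_eq_one, ← σ.add_left, neg_add_cancel, σ.zero_left]

theorem neg_right (g h : Γ) : σ g (-h) = (σ g h)⁻¹ := by
  rw [eq_inv_iff_mul_eq_one, ← σ.add_right, neg_add_cancel, σ.zero_right]

theorem sub_left (g g' h : Γ) : σ (g - g') h = σ g h / σ g' h := by
  rw [sub_eq_add_neg, σ.add_left, σ.neg_left, div_eq_mul_inv]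

theorem sub_right (g h h' : Γ) : σ g (h - h') = σ g h / σ g h' := by
  rw [sub_eq_add_neg, σ.add_right, σ.neg_right, div_eq_mul_inv]

/-- The commutation character. -/
noncomputable def χ (g h : Γ) : Circle := σ g h / σ h g

/-- The twisted translations. -/
noncomputable def U (g : Γ) : L2 Γ →L[ℂ] L2 Γ := W (Equiv.addRight g) fun h => σ g (h - g)

/-- The twisted translations from the other side. -/
noncomputable def V (g : Γ) : L2 Γ →L[ℂ] L2 Γ := W (Equiv.addRight g) fun h => σ (h - g) g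

theorem U_apply (g : Γ) (ξ : L2 Γ) (h : Γ) : σ.U g ξ h = (σ g (h - g) : ℂ) * ξ (h - g) := by
  rw [U, W_apply]
  simp [sub_eq_add_neg]

theorem V_apply (g : Γ) (ξ : L2 Γ) (h : Γ) : σ.V g ξ h = (σ (h - g) g : ℂ) * ξ (h - g) := by
  rw [V, W_apply]
  simp [sub_eq_add_neg]

theorem U_mul (g h : Γ) : σ.U g * σ.U h = (σ g h : ℂ) • σ.U (g + h) := by
  ext ξ i
  rw [mulA, smulA, U_apply, U_apply, U_apply, sub_sub]
  have h1 : i - g = (i - (g + h)) + h := by abel
  rw [σ.add_left, h1, σ.add_right]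
  push_cast
  ring

theorem U_zero : σ.U 0 = 1 := by
  ext ξ i
  simp [U_apply, σ.zero_left]

theorem U_comm (g h : Γ) : σ.U g * σ.U h = (σ.χ g h : ℂ) • (σ.U h * σ.U g) := by
  rw [U_mul, U_mul, smul_smul, ← Circle.coe_mul, χ, div_mul_cancel, add_comm]

theorem U_V_comm (g h : Γ) : σ.U g * σ.V h = σ.V h * σ.U g := by
  ext ξ i
  rw [mulA, mulA, U_apply, V_apply, V_apply, U_apply]
  set k := i - h - g with hk
  have h1 : i - g = k + h := by rw [hk]; abel
  have h2 : i - h = k + g := by rw [hk]; abel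
  rw [h1, h2, σ.add_right, σ.add_left, add_sub_cancel_right]
  push_cast
  ring

theorem star_U (g : Γ) : star (σ.U g) = (σ g g : ℂ) • σ.U (-g) := by
  rw [U, star_W]
  ext ξ i
  rw [smulA, U_apply, W_apply]
  simp only [Equiv.symm_symm, Equiv.coe_addRight, add_sub_cancel_right]
  rw [sub_neg_eq_add, σ.neg_left, σ.add_right, mul_inv, Circle.coe_mul, ← mul_assoc, ← mul_assoc,
    Circle.coe_inv (σ g g), mul_comm (((σ g g : Circle) : ℂ)), mul_assoc ((((σ g i)⁻¹ : Circle) : ℂ)),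
    mul_inv_cancel₀ (Circle.coe_ne_zero _), mul_one]

theorem star_U_mul_U (g : Γ) : star (σ.U g) * σ.U g = 1 := by
  rw [star_U, smul_mul_assoc, U_mul, smul_smul, ← Circle.coe_mul, σ.neg_left, neg_add_cancel,
    U_zero, mul_inv_cancel]
  simp

theorem U_mul_star_U (g : Γ) : σ.U g * star (σ.U g) = 1 := by
  rw [star_U, mul_smul_comm, U_mul, smul_smul, ← Circle.coe_mul, σ.neg_right, add_neg_cancel,
    U_zero, mul_inv_cancel]
  simp

theorem U_conj (g h : Γ) : σ.U g * σ.U h * star (σ.U g) = (σ.χ g h : ℂ) • σ.U h := by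
  rw [U_comm, smul_mul_assoc, mul_assoc, U_mul_star_U, mul_one]

theorem norm_U_le (g : Γ) : ‖σ.U g‖ ≤ 1 := norm_W_le _ _

theorem U_δ (g k : Γ) : σ.U g (δ k) = (σ g k : ℂ) • δ (k + g) := by
  rw [U, W_δ]
  simp

theorem V_δ (g k : Γ) : σ.V g (δ k) = (σ k g : ℂ) • δ (k + g) := by
  rw [V, W_δ]
  simp

/-- Finite linear combinations of the twisted translations. -/
noncomputable def Φ : (Γ →₀ ℂ) →ₗ[ℂ] (L2 Γ →L[ℂ] L2 Γ) := Finsupp.linearCombination ℂ σ.U

theorem Φ_single (g : Γ) (a : ℂ) : σ.Φ (Finsupp.single g a) = a • σ.U g := by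
  simp [Φ]

/-- The twisted group algebra, algebraic version. -/
noncomputable def alg : StarSubalgebra ℂ (L2 Γ →L[ℂ] L2 Γ) where
  carrier := (Submodule.span ℂ (Set.range σ.U) : Set (L2 Γ →L[ℂ] L2 Γ))
  mul_mem' := by
    intro a b ha hb
    simp only [SetLike.mem_coe] at ha hb ⊢
    induction ha using Submodule.span_induction with
    | mem x hx =>
      obtain ⟨g, rfl⟩ := hx
      induction hb using Submodule.span_induction with
      | mem y hy =>
        obtain ⟨h, rfl⟩ := hy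
        rw [U_mul]
        exact Submodule.smul_mem _ _ (Submodule.subset_span ⟨_, rfl⟩)
      | zero => simp
      | add y z _ _ hy hz => rw [mul_add]; exact Submodule.add_mem _ hy hz
      | smul c y _ hy => rw [mul_smul_comm]; exact Submodule.smul_mem _ _ hy
    | zero => simp
    | add x y _ _ hx hy => rw [add_mul]; exact Submodule.add_mem _ hx hy
    | smul c x _ hx => rw [smul_mul_assoc]; exact Submodule.smul_mem _ _ hx
  one_mem' := Submodule.subset_span ⟨0, σ.U_zero⟩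
  add_mem' := fun ha hb => Submodule.add_mem _ ha hb
  zero_mem' := Submodule.zero_mem _
  algebraMap_mem' := fun c => by
    rw [Algebra.algebraMap_eq_smul_one, ← σ.U_zero]
    exact Submodule.smul_mem _ _ (Submodule.subset_span ⟨0, rfl⟩)
  star_mem' := by
    intro a ha
    simp only [SetLike.mem_coe] at ha ⊢
    induction ha using Submodule.span_induction with
    | mem x hx =>
      obtain ⟨g, rfl⟩ := hx
      rw [star_U]
      exact Submodule.smul_mem _ _ (Submodule.subset_span ⟨_, rfl⟩)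
    | zero => simp
    | add x y _ _ hx hy => rw [star_add]; exact Submodule.add_mem _ hx hy
    | smul c x _ hx => rw [star_smul]; exact Submodule.smul_mem _ _ hx

theorem mem_alg_iff {x : L2 Γ →L[ℂ] L2 Γ} : x ∈ σ.alg ↔ ∃ f, σ.Φ f = x := by
  show x ∈ Submodule.span ℂ (Set.range σ.U) ↔ _
  rw [← Finsupp.range_linearCombination]
  rfl

/-- The twisted group `C*`-algebra `C*_r(Γ, σ)`. -/
noncomputable def TG : StarSubalgebra ℂ (L2 Γ →L[ℂ] L2 Γ) := σ.alg.topologicalClosure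

instance : IsClosed (σ.TG : Set (L2 Γ →L[ℂ] L2 Γ)) := σ.alg.isClosed_topologicalClosure

theorem U_mem (g : Γ) : σ.U g ∈ σ.TG :=
  σ.alg.le_topologicalClosure (Submodule.subset_span ⟨g, rfl⟩)

theorem Φ_mem (f : Γ →₀ ℂ) : σ.Φ f ∈ σ.TG :=
  σ.alg.le_topologicalClosure (σ.mem_alg_iff.2 ⟨f, rfl⟩)

theorem exists_approx {x : L2 Γ →L[ℂ] L2 Γ} (hx : x ∈ σ.TG) {ε : ℝ} (hε : 0 < ε) :
    ∃ f, ‖x - σ.Φ f‖ < ε := by
  have h : x ∈ closure (σ.alg : Set (L2 Γ →L[ℂ] L2 Γ)) := hx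
  obtain ⟨y, hy, hxy⟩ := Metric.mem_closure_iff.1 h ε hε
  obtain ⟨f, rfl⟩ := σ.mem_alg_iff.1 hy
  exact ⟨f, by rwa [dist_eq_norm] at hxy⟩

theorem mem_of_isClosed (P : Submodule ℂ (L2 Γ →L[ℂ] L2 Γ))
    (hP : IsClosed (P : Set (L2 Γ →L[ℂ] L2 Γ))) (h : ∀ g, σ.U g ∈ P) {x : L2 Γ →L[ℂ] L2 Γ}
    (hx : x ∈ σ.TG) : x ∈ P := by
  have h1 : (σ.alg : Set (L2 Γ →L[ℂ] L2 Γ)) ⊆ P := by
    have h2 : Submodule.span ℂ (Set.range σ.U) ≤ P := by
      rw [Submodule.span_le]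
      rintro _ ⟨g, rfl⟩
      exact h g
    exact h2
  exact closure_minimal h1 hP hx

/-- Two continuous linear maps on `B(ℓ²Γ)` agreeing on the `U g` agree on `C*_r(Γ,σ)`. -/
theorem eq_of_eq_U {E : Type*} [NormedAddCommGroup E] [NormedSpace ℂ E]
    (S T : (L2 Γ →L[ℂ] L2 Γ) →L[ℂ] E) (h : ∀ g, S (σ.U g) = T (σ.U g))
    {x : L2 Γ →L[ℂ] L2 Γ} (hx : x ∈ σ.TG) : S x = T x := by
  have := σ.mem_of_isClosed (S - T).ker (S - T).isClosed_ker (fun g => by simp [h]) hx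
  rw [LinearMap.mem_ker] at this
  have h2 : S x - T x = 0 := this
  exact sub_eq_zero.1 h2

theorem V_comm {x : L2 Γ →L[ℂ] L2 Γ} (hx : x ∈ σ.TG) (h : Γ) : x * σ.V h = σ.V h * x :=
  σ.eq_of_eq_U ((ContinuousLinearMap.mul ℂ _).flip (σ.V h)) (ContinuousLinearMap.mul ℂ _ (σ.V h))
    (fun g => σ.U_V_comm g h) hx

/-- The canonical trace. -/
noncomputable def τ (x : L2 Γ →L[ℂ] L2 Γ) : ℂ := x (δ 0) 0

/-- The canonical trace as a continuous linear map. -/
noncomputable def τL : (L2 Γ →L[ℂ] L2 Γ) →L[ℂ] ℂ :=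
  (innerSL ℂ (δ 0 : L2 Γ)).comp (ContinuousLinearMap.apply ℂ (L2 Γ) (δ 0 : L2 Γ))

theorem τL_apply (x : L2 Γ →L[ℂ] L2 Γ) : τL x = τ x := by
  simp [τL, τ, inner_δ]

theorem τ_U (g : Γ) : τ (σ.U g) = if g = 0 then 1 else 0 := by
  rw [τ, U_δ]
  simp only [σ.zero_right, Circle.coe_one, one_smul, zero_add, δ_apply]
  simp [eq_comm]

theorem τ_Φ (f : Γ →₀ ℂ) : τ (σ.Φ f) = f 0 := by
  rw [← τL_apply, Φ, Finsupp.linearCombination_apply, Finsupp.sum, map_sum]
  simp only [map_smul, τL_apply, τ_U, smul_eq_mul, mul_ite, mul_one, mul_zero]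
  rw [Finset.sum_ite_eq' f.support 0 f]
  split_ifs with h
  · rfl
  · exact (Finsupp.notMem_support_iff.1 h).symm

theorem τ_mul_comm {x y : L2 Γ →L[ℂ] L2 Γ} (hx : x ∈ σ.TG) (hy : y ∈ σ.TG) :
    τ (x * y) = τ (y * x) := by
  have h1 : ∀ g, ∀ {y : L2 Γ →L[ℂ] L2 Γ}, y ∈ σ.TG → τ (σ.U g * y) = τ (y * σ.U g) := by
    intro g y hy
    have := σ.eq_of_eq_U (τL.comp (ContinuousLinearMap.mul ℂ _ (σ.U g)))
      (τL.comp ((ContinuousLinearMap.mul ℂ _).flip (σ.U g))) (fun h => ?_) hy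
    · simpa [τL_apply] using this
    · show τL (σ.U g * σ.U h) = τL (σ.U h * σ.U g)
      rw [U_mul, U_mul, map_smul, map_smul, τL_apply, τL_apply, τ_U, τ_U, add_comm h g]
      split_ifs with h0
      · have h2 : h = -g := (neg_eq_of_add_eq_zero_right h0).symm
        rw [h2, σ.neg_left, σ.neg_right]
      · simp
  have := σ.eq_of_eq_U (τL.comp ((ContinuousLinearMap.mul ℂ _).flip y))
    (τL.comp (ContinuousLinearMap.mul ℂ _ y)) (fun g => ?_) hx
  · simpa [τL_apply] using this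
  · show τL (σ.U g * y) = τL (y * σ.U g)
    rw [τL_apply, τL_apply]
    exact h1 g hy

theorem τ_star_mul_self (x : L2 Γ →L[ℂ] L2 Γ) : τ (star x * x) = (‖x (δ 0)‖ ^ 2 : ℝ) := by
  rw [← τL_apply]
  show ⟪(δ 0 : L2 Γ), (star x * x) (δ 0)⟫_ℂ = _
  rw [mulA, ContinuousLinearMap.star_eq_adjoint,
    ContinuousLinearMap.adjoint_inner_right, inner_self_eq_norm_sq_to_K]
  norm_cast

theorem eq_zero_of_apply_δ {x : L2 Γ →L[ℂ] L2 Γ} (hx : x ∈ σ.TG) (h : x (δ 0) = 0) : x = 0 := by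
  refine ext_δ fun g => ?_
  have h1 : σ.V g (δ 0) = δ g := by
    rw [V_δ]; simp [σ.zero_left]
  rw [← h1]
  have h2 := congrArg (fun T : L2 Γ →L[ℂ] L2 Γ => T (δ 0)) (σ.V_comm hx g)
  simp only [mulA] at h2
  rw [h2, h]
  simp

end Bichar

end Pool.Agent.Work.MP_7f0ddb_an
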