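import Mathlib

open scoped ENNReal InnerProductSpace ComplexConjugate TensorProduct

set_option linter.unusedSectionVars false

namespace Pool.Agent.Work.MP_7f0ddb_an

section Lift

variable {E F : Type*} [NormedAddCommGroup E] [NormedSpace ℂ E] [NormedAddCommGroup F]
  [NormedSpace ℂ F] [CompleteSpace F] (e : E →ₗᵢ[ℂ] F)

/-- Extension of an operator on a dense isometrically embedded subspace. -/
noncomputable def lft (T : E →L[ℂ] E) : F →L[ℂ] F :=
  ((e.toContinuousLinearMap).comp T).extend (e.toContinuousLinearMap)

variable {e} (he : DenseRange e)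

include he

theorem lft_apply (T : E →L[ℂ] E) (x : E) : lft e T (e x) = e (T x) :=
  ContinuousLinearMap.extend_eq (f := (e.toContinuousLinearMap).comp T)
    (e := e.toContinuousLinearMap) he e.isometry.isUniformInducing x

theorem lft_unique {S S' : F →L[ℂ] F} (h : ∀ x, S (e x) = S' (e x)) : S = S' := by
  ext1 y
  have : (S : F → F) = S' := he.equalizer S.continuous S'.continuous (funext h)
  rw [this]

theorem lft_mul (S T : E →L[ℂ] E) : lft e (S * T) = lft e S * lft e T :=
  lft_unique he fun x => by
    show lft e (S * T) (e x) = lft e S (lft e T (e x))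
    rw [lft_apply he, lft_apply he, lft_apply he]
    rfl

theorem lft_add (S T : E →L[ℂ] E) : lft e (S + T) = lft e S + lft e T :=
  lft_unique he fun x => by
    show lft e (S + T) (e x) = lft e S (e x) + lft e T (e x)
    rw [lft_apply he, lft_apply he, lft_apply he, ← map_add]
    rfl

theorem lft_smul (c : ℂ) (S : E →L[ℂ] E) : lft e (c • S) = c • lft e S :=
  lft_unique he fun x => by
    show lft e (c • S) (e x) = c • lft e S (e x)
    rw [lft_apply he, lft_apply he, ← map_smul]
    rfl

theorem lft_one : lft e (1 : E →L[ℂ] E) = 1 :=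
  lft_unique he fun x => by
    rw [lft_apply he]
    rfl

theorem lft_zero : lft e (0 : E →L[ℂ] E) = 0 :=
  lft_unique he fun x => by
    rw [lft_apply he]
    simp

theorem lft_sum {ι : Type*} (s : Finset ι) (T : ι → (E →L[ℂ] E)) :
    lft e (∑ k ∈ s, T k) = ∑ k ∈ s, lft e (T k) := by
  classical
  induction s using Finset.induction_on with
  | empty => simp [lft_zero he]
  | insert a s ha ih => rw [Finset.sum_insert ha, Finset.sum_insert ha, lft_add he, ih]

theorem norm_lft (T : E →L[ℂ] E) : ‖lft e T‖ = ‖T‖ := by
  apply le_antisymm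
  · have h1 := ContinuousLinearMap.opNorm_extend_le (N := 1)
      (f := (e.toContinuousLinearMap).comp T)
      (e := e.toContinuousLinearMap) he
      (fun x => by
        rw [NNReal.coe_one, one_mul]
        exact (e.norm_map x).symm.le)
    refine h1.trans ?_
    rw [NNReal.coe_one, one_mul]
    refine ContinuousLinearMap.opNorm_le_bound _ (norm_nonneg T) fun x => ?_
    show ‖e (T x)‖ ≤ _
    rw [e.norm_map]
    exact T.le_opNorm x
  · refine ContinuousLinearMap.opNorm_le_bound _ (norm_nonneg _) fun x => ?_
    rw [← e.norm_map (T x), ← lft_apply he, ← e.norm_map x]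
    exact (lft e T).le_opNorm _

end Lift

section Star

variable {E F : Type*} [NormedAddCommGroup E] [InnerProductSpace ℂ E] [NormedAddCommGroup F]
  [InnerProductSpace ℂ F] [CompleteSpace F] {e : E →ₗᵢ[ℂ] F} (he : DenseRange e)

include he

theorem star_lft {S T : E →L[ℂ] E} (h : ∀ x y, ⟪S x, y⟫_ℂ = ⟪x, T y⟫_ℂ) :
    star (lft e T) = lft e S := by
  rw [ContinuousLinearMap.star_eq_adjoint]
  symm
  rw [ContinuousLinearMap.eq_adjoint_iff]
  intro x y
  refine he.induction_on₂ (p := fun x y =>
    ⟪lft e S x, y⟫_ℂ = ⟪x, lft e T y⟫_ℂ) ?_ ?_ x y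
  · apply isClosed_eq
    · fun_prop
    · fun_prop
  · intro x y
    rw [lft_apply he, lft_apply he, LinearIsometry.inner_map_map, LinearIsometry.inner_map_map]
    exact h x y

end Star

end Pool.Agent.Work.MP_7f0ddb_an
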