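import Mathlib
import Pool.Agent.Work.MP_7f0ddb_an.Weighted
import Pool.Agent.Work.MP_7f0ddb_an.Lift

open scoped ENNReal InnerProductSpace ComplexConjugate TensorProduct

set_option linter.unusedSectionVars false

namespace Pool.Agent.Work.MP_7f0ddb_an

variable {I J : Type*}

theorem memℓp_tm (ξ : L2 I) (η : L2 J) : Memℓp (fun p : I × J => ξ p.1 * η p.2) 2 := by
  rw [L2.memℓp_iff]
  have h := Summable.mul_of_nonneg (f := fun i => ‖ξ i‖ ^ 2) (g := fun j => ‖η j‖ ^ 2)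
    ξ.summable η.summable (fun _ => sq_nonneg _) (fun _ => sq_nonneg _)
  refine h.congr fun p => ?_
  rw [norm_mul, mul_pow]

/-- The product `(ξ ⊗ η)(i,j) = ξ i * η j`. -/
noncomputable def tm (ξ : L2 I) (η : L2 J) : L2 (I × J) :=
  ⟨fun p => ξ p.1 * η p.2, memℓp_tm ξ η⟩

@[simp] theorem tm_apply (ξ : L2 I) (η : L2 J) (p : I × J) : tm ξ η p = ξ p.1 * η p.2 := rfl

/-- The bilinear map `tm`. -/
noncomputable def tmB : L2 I →ₗ[ℂ] L2 J →ₗ[ℂ] L2 (I × J) :=
  LinearMap.mk₂ ℂ tm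
    (fun ξ ξ' η => by ext p; exact add_mul _ _ _)
    (fun c ξ η => by ext p; exact mul_assoc _ _ _)
    (fun ξ η η' => by ext p; exact mul_add _ _ _)
    (fun c ξ η => by ext p; exact mul_left_comm _ _ _)

theorem L2.inner_eq (ξ η : L2 I) : ⟪ξ, η⟫_ℂ = ∑' i, η i * conj (ξ i) := by
  rw [lp.inner_eq_tsum]
  rfl

theorem L2.summable_inner (ξ η : L2 I) : Summable fun i => ‖η i * conj (ξ i)‖ :=
  by
  have h : Summable fun i => η i * conj (ξ i) := lp.summable_inner (𝕜 := ℂ) ξ η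
  exact h.norm

theorem tsum_prod_aux (f : I → ℂ) (g : J → ℂ) (hf : Summable fun i => ‖f i‖)
    (hg : Summable fun j => ‖g j‖) : (∑' i, f i) * (∑' j, g j) = ∑' p : I × J, f p.1 * g p.2 :=
  tsum_mul_tsum_of_summable_norm hf hg

theorem inner_tm (ξ ξ' : L2 I) (η η' : L2 J) :
    ⟪tm ξ η, tm ξ' η'⟫_ℂ = ⟪ξ, ξ'⟫_ℂ * ⟪η, η'⟫_ℂ := by
  rw [L2.inner_eq, L2.inner_eq, L2.inner_eq,
    tsum_prod_aux _ _ (L2.summable_inner ξ ξ') (L2.summable_inner η η')]
  refine tsum_congr fun p => ?_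
  rw [tm_apply, tm_apply, map_mul]
  ring

theorem inner_lift (x y : L2 I ⊗[ℂ] L2 J) :
    ⟪TensorProduct.lift tmB x, TensorProduct.lift tmB y⟫_ℂ = ⟪x, y⟫_ℂ := by
  induction x using TensorProduct.induction_on with
  | zero => simp
  | add x x' hx hx' => rw [map_add, inner_add_left, inner_add_left, hx, hx']
  | tmul ξ η =>
    induction y using TensorProduct.induction_on with
    | zero => simp
    | add y y' hy hy' => rw [map_add, inner_add_right, inner_add_right, hy, hy']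
    | tmul ξ' η' =>
      rw [TensorProduct.lift.tmul, TensorProduct.lift.tmul, TensorProduct.inner_tmul]
      exact inner_tm ξ ξ' η η'

/-- The isometric embedding `ℓ²(I) ⊗ ℓ²(J) → ℓ²(I × J)`. -/
noncomputable def Wt : L2 I ⊗[ℂ] L2 J →ₗᵢ[ℂ] L2 (I × J) :=
  (TensorProduct.lift tmB).isometryOfInner inner_lift

theorem Wt_tmul (ξ : L2 I) (η : L2 J) : Wt (ξ ⊗ₜ[ℂ] η) = tm ξ η := rfl

theorem tm_δ [DecidableEq I] [DecidableEq J] (i : I) (j : J) :
    tm (δ i) (δ j) = (δ (i, j) : L2 (I × J)) := by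
  ext p
  rw [tm_apply, δ_apply, δ_apply, δ_apply]
  by_cases h1 : p.1 = i
  · by_cases h2 : p.2 = j
    · have : p = (i, j) := Prod.ext h1 h2
      simp [this]
    · have : p ≠ (i, j) := fun h => h2 (by rw [h])
      simp [h2, this]
  · have : p ≠ (i, j) := fun h => h1 (by rw [h])
    simp [h1, this]

theorem dense_span_δ [DecidableEq I] :
    Dense (Submodule.span ℂ (Set.range fun p : I => (δ p : L2 I)) : Set (L2 I)) := by
  rw [Submodule.dense_iff_topologicalClosure_eq_top, Submodule.topologicalClosure_eq_top_iff,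
    Submodule.eq_bot_iff]
  intro x hx
  ext p
  have := hx (δ p) (Submodule.subset_span ⟨p, rfl⟩)
  rw [inner_δ] at this
  rw [this]
  rfl

theorem denseRange_Wt : DenseRange (Wt : L2 I ⊗[ℂ] L2 J →ₗᵢ[ℂ] L2 (I × J)) := by
  classical
  have h1 : Submodule.span ℂ (Set.range fun p : I × J => (δ p : L2 (I × J))) ≤
      LinearMap.range (Wt : L2 I ⊗[ℂ] L2 J →ₗᵢ[ℂ] L2 (I × J)).toLinearMap := by
    rw [Submodule.span_le]
    rintro _ ⟨⟨i, j⟩, rfl⟩
    refine ⟨δ i ⊗ₜ[ℂ] δ j, ?_⟩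
    show Wt (δ i ⊗ₜ[ℂ] δ j) = _
    rw [Wt_tmul, tm_δ]
  exact dense_span_δ.mono h1

/-- The operator `a ⊗ b` on `ℓ²(I × J)`. -/
noncomputable def tens (a : L2 I →L[ℂ] L2 I) (b : L2 J →L[ℂ] L2 J) :
    L2 (I × J) →L[ℂ] L2 (I × J) := lft Wt (TensorProduct.mapL a b)

theorem tens_tm (a : L2 I →L[ℂ] L2 I) (b : L2 J →L[ℂ] L2 J) (ξ : L2 I) (η : L2 J) :
    tens a b (tm ξ η) = tm (a ξ) (b η) := by
  rw [← Wt_tmul, tens, lft_apply denseRange_Wt, TensorProduct.mapL_tmul, Wt_tmul]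

theorem tens_mul (a a' : L2 I →L[ℂ] L2 I) (b b' : L2 J →L[ℂ] L2 J) :
    tens a b * tens a' b' = tens (a * a') (b * b') := by
  rw [tens, tens, tens, TensorProduct.mapL_mul, lft_mul denseRange_Wt]

theorem tens_add_left (a a' : L2 I →L[ℂ] L2 I) (b : L2 J →L[ℂ] L2 J) :
    tens (a + a') b = tens a b + tens a' b := by
  rw [tens, tens, tens, TensorProduct.mapL_add_left, lft_add denseRange_Wt]

theorem tens_add_right (a : L2 I →L[ℂ] L2 I) (b b' : L2 J →L[ℂ] L2 J) :
    tens a (b + b') = tens a b + tens a b' := by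
  rw [tens, tens, tens, TensorProduct.mapL_add_right, lft_add denseRange_Wt]

theorem tens_smul_left (c : ℂ) (a : L2 I →L[ℂ] L2 I) (b : L2 J →L[ℂ] L2 J) :
    tens (c • a) b = c • tens a b := by
  rw [tens, tens, TensorProduct.mapL_smul_left, lft_smul denseRange_Wt]

theorem tens_smul_right (c : ℂ) (a : L2 I →L[ℂ] L2 I) (b : L2 J →L[ℂ] L2 J) :
    tens a (c • b) = c • tens a b := by
  rw [tens, tens, TensorProduct.mapL_smul_right, lft_smul denseRange_Wt]

theorem tens_one : tens (1 : L2 I →L[ℂ] L2 I) (1 : L2 J →L[ℂ] L2 J) = 1 := by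
  rw [tens]
  have : TensorProduct.mapL (1 : L2 I →L[ℂ] L2 I) (1 : L2 J →L[ℂ] L2 J) = 1 :=
    TensorProduct.mapL_id_id
  rw [this, lft_one denseRange_Wt]

theorem star_tens (a : L2 I →L[ℂ] L2 I) (b : L2 J →L[ℂ] L2 J) :
    star (tens a b) = tens (star a) (star b) := by
  refine star_lft denseRange_Wt fun x y => ?_
  induction x using TensorProduct.induction_on with
  | zero => simp
  | add x x' hx hx' => rw [map_add, inner_add_left, inner_add_left, hx, hx']
  | tmul ξ η =>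
    induction y using TensorProduct.induction_on with
    | zero => simp
    | add y y' hy hy' => rw [map_add, inner_add_right, inner_add_right, hy, hy']
    | tmul ξ' η' =>
      rw [TensorProduct.mapL_tmul, TensorProduct.mapL_tmul, TensorProduct.inner_tmul,
        TensorProduct.inner_tmul, ContinuousLinearMap.star_eq_adjoint,
        ContinuousLinearMap.star_eq_adjoint, ContinuousLinearMap.adjoint_inner_left,
        ContinuousLinearMap.adjoint_inner_left]

theorem norm_sum_tens {ι : Type*} (s : Finset ι) (a : ι → (L2 I →L[ℂ] L2 I))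
    (b : ι → (L2 J →L[ℂ] L2 J)) :
    ‖∑ k ∈ s, tens (a k) (b k)‖ = ‖∑ k ∈ s, TensorProduct.mapL (a k) (b k)‖ := by
  simp only [tens]
  rw [← lft_sum denseRange_Wt, norm_lft denseRange_Wt]

theorem norm_tens_le (a : L2 I →L[ℂ] L2 I) (b : L2 J →L[ℂ] L2 J) :
    ‖tens a b‖ ≤ ‖a‖ * ‖b‖ := by
  rw [tens, norm_lft denseRange_Wt]
  exact TensorProduct.norm_mapL_le a b

end Pool.Agent.Work.MP_7f0ddb_an
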