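import Mathlib
import Pool.Agent.Work.MP_7f0ddb_an.Defs
import Pool.Agent.Work.MP_7f0ddb_an.TGA
import Pool.Agent.Work.MP_7f0ddb_an.Tensor

open scoped ENNReal InnerProductSpace ComplexConjugate TensorProduct

set_option linter.unusedSectionVars false

namespace Pool.Agent.Work.MP_7f0ddb_an

section tensW

variable {I J : Type*}

theorem tens_W (e : I ≃ I) (c : I → Circle) (e' : J ≃ J) (c' : J → Circle) :
    tens (W e c) (W e' c') = W (e.prodCongr e') (fun p => c p.1 * c' p.2) := by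
  classical
  refine ext_δ fun p => ?_
  obtain ⟨i, j⟩ := p
  rw [← tm_δ, tens_tm, W_δ, W_δ]
  ext q
  simp only [tm_apply, lp.coeFn_smul, Pi.smul_apply, smul_eq_mul, W_apply]
  rw [δ_apply, δ_apply, δ_apply, δ_apply]
  simp only [Equiv.prodCongr_symm, Equiv.prodCongr_apply, Prod.map_fst, Prod.map_snd,
    Equiv.symm_apply_eq, Circle.coe_mul]
  by_cases h1 : q.1 = e i
  · by_cases h2 : q.2 = e' j
    · simp [h1, h2]
    · simp [h2]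
  · simp [h1]

/-- `a ↦ tens a b` as a continuous linear map. -/
noncomputable def tensLeft (b : L2 J →L[ℂ] L2 J) :
    (L2 I →L[ℂ] L2 I) →L[ℂ] (L2 (I × J) →L[ℂ] L2 (I × J)) :=
  LinearMap.mkContinuous
    { toFun := fun a => tens a b
      map_add' := fun a a' => tens_add_left a a' b
      map_smul' := fun c a => tens_smul_left c a b } ‖b‖ (fun a => by
        rw [mul_comm]
        exact norm_tens_le a b)

/-- `b ↦ tens a b` as a continuous linear map. -/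
noncomputable def tensRight (a : L2 I →L[ℂ] L2 I) :
    (L2 J →L[ℂ] L2 J) →L[ℂ] (L2 (I × J) →L[ℂ] L2 (I × J)) :=
  LinearMap.mkContinuous
    { toFun := fun b => tens a b
      map_add' := fun b b' => tens_add_right a b b'
      map_smul' := fun c b => tens_smul_right c a b } ‖a‖ (fun b => norm_tens_le a b)

theorem tensLeft_apply (a : L2 I →L[ℂ] L2 I) (b : L2 J →L[ℂ] L2 J) :
    tensLeft b a = tens a b := rfl

theorem tensRight_apply (a : L2 I →L[ℂ] L2 I) (b : L2 J →L[ℂ] L2 J) :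
    tensRight a b = tens a b := rfl

end tensW

namespace Bichar

variable {Γ₁ Γ₂ : Type} [AddCommGroup Γ₁] [DecidableEq Γ₁] [AddCommGroup Γ₂] [DecidableEq Γ₂]
  (σ₁ : Bichar Γ₁) (σ₂ : Bichar Γ₂)

/-- The product bicharacter. -/
noncomputable def prod : Bichar (Γ₁ × Γ₂) where
  toFun p q := σ₁ p.1 q.1 * σ₂ p.2 q.2
  add_left p p' q := by
    rw [Prod.fst_add, Prod.snd_add, σ₁.add_left, σ₂.add_left, mul_mul_mul_comm]
  add_right p q q' := by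
    rw [Prod.fst_add, Prod.snd_add, σ₁.add_right, σ₂.add_right, mul_mul_mul_comm]

theorem prod_apply (p q : Γ₁ × Γ₂) : (σ₁.prod σ₂) p q = σ₁ p.1 q.1 * σ₂ p.2 q.2 := rfl

theorem tens_U (g : Γ₁) (h : Γ₂) : tens (σ₁.U g) (σ₂.U h) = (σ₁.prod σ₂).U (g, h) := by
  rw [U, U, U, tens_W]
  rfl

theorem tens_mem {a : L2 Γ₁ →L[ℂ] L2 Γ₁} (ha : a ∈ σ₁.TG) {b : L2 Γ₂ →L[ℂ] L2 Γ₂}
    (hb : b ∈ σ₂.TG) : tens a b ∈ (σ₁.prod σ₂).TG := by
  have hcl : IsClosed ((σ₁.prod σ₂).TG : Set (L2 (Γ₁ × Γ₂) →L[ℂ] L2 (Γ₁ × Γ₂))) :=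
    (σ₁.prod σ₂).alg.isClosed_topologicalClosure
  have h1 : ∀ h, tens a (σ₂.U h) ∈ (σ₁.prod σ₂).TG := by
    intro h
    have := σ₁.mem_of_isClosed
      (Submodule.comap (tensLeft (I := Γ₁) (σ₂.U h)).toLinearMap
        (Subalgebra.toSubmodule (σ₁.prod σ₂).TG.toSubalgebra))
      (hcl.preimage (tensLeft (I := Γ₁) (σ₂.U h)).continuous)
      (fun g => by
        show tens (σ₁.U g) (σ₂.U h) ∈ (σ₁.prod σ₂).TG
        rw [tens_U]
        exact U_mem _ _) ha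
    exact this
  have := σ₂.mem_of_isClosed
      (Submodule.comap (tensRight (J := Γ₂) a).toLinearMap
        (Subalgebra.toSubmodule (σ₁.prod σ₂).TG.toSubalgebra))
      (hcl.preimage (tensRight (J := Γ₂) a).continuous)
      (fun h => h1 h) hb
  exact this

/-- The embedding of the first factor. -/
noncomputable def inl : σ₁.TG →⋆ₐ[ℂ] (σ₁.prod σ₂).TG where
  toFun a := ⟨tens a 1, σ₁.tens_mem σ₂ a.2 (one_mem _)⟩
  map_one' := Subtype.ext tens_one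
  map_mul' a b := Subtype.ext (by
    show tens ((a : L2 Γ₁ →L[ℂ] L2 Γ₁) * (b : L2 Γ₁ →L[ℂ] L2 Γ₁)) 1 =
      tens (a : L2 Γ₁ →L[ℂ] L2 Γ₁) 1 * tens (b : L2 Γ₁ →L[ℂ] L2 Γ₁) 1
    rw [tens_mul, mul_one])
  map_zero' := Subtype.ext (by
    show tensLeft 1 (0 : L2 Γ₁ →L[ℂ] L2 Γ₁) = 0
    exact map_zero _)
  map_add' a b := Subtype.ext (tens_add_left _ _ _)
  commutes' r := Subtype.ext (by
    show tens (algebraMap ℂ (L2 Γ₁ →L[ℂ] L2 Γ₁) r) 1 = algebraMap ℂ (L2 (Γ₁ × Γ₂) →L[ℂ] _) r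
    rw [Algebra.algebraMap_eq_smul_one, Algebra.algebraMap_eq_smul_one, tens_smul_left, tens_one])
  map_star' a := Subtype.ext (by
    show tens (star (a : L2 Γ₁ →L[ℂ] L2 Γ₁)) 1 = star (tens (a : L2 Γ₁ →L[ℂ] L2 Γ₁) 1)
    rw [star_tens, star_one])

/-- The embedding of the second factor. -/
noncomputable def inr : σ₂.TG →⋆ₐ[ℂ] (σ₁.prod σ₂).TG where
  toFun b := ⟨tens 1 b, σ₁.tens_mem σ₂ (one_mem _) b.2⟩
  map_one' := Subtype.ext tens_one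
  map_mul' a b := Subtype.ext (by
    show tens 1 ((a : L2 Γ₂ →L[ℂ] L2 Γ₂) * (b : L2 Γ₂ →L[ℂ] L2 Γ₂)) =
      tens 1 (a : L2 Γ₂ →L[ℂ] L2 Γ₂) * tens 1 (b : L2 Γ₂ →L[ℂ] L2 Γ₂)
    rw [tens_mul, mul_one])
  map_zero' := Subtype.ext (by
    show tensRight 1 (0 : L2 Γ₂ →L[ℂ] L2 Γ₂) = 0
    exact map_zero _)
  map_add' a b := Subtype.ext (tens_add_right _ _ _)
  commutes' r := Subtype.ext (by
    show tens 1 (algebraMap ℂ (L2 Γ₂ →L[ℂ] L2 Γ₂) r) = algebraMap ℂ (L2 (Γ₁ × Γ₂) →L[ℂ] _) r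
    rw [Algebra.algebraMap_eq_smul_one, Algebra.algebraMap_eq_smul_one, tens_smul_right, tens_one])
  map_star' a := Subtype.ext (by
    show tens 1 (star (a : L2 Γ₂ →L[ℂ] L2 Γ₂)) = star (tens 1 (a : L2 Γ₂ →L[ℂ] L2 Γ₂))
    rw [star_tens, star_one])

theorem coe_inl (a : σ₁.TG) :
    ((σ₁.inl σ₂ a : (σ₁.prod σ₂).TG) : L2 (Γ₁ × Γ₂) →L[ℂ] L2 (Γ₁ × Γ₂)) = tens a 1 := rfl

theorem coe_inr (b : σ₂.TG) :
    ((σ₁.inr σ₂ b : (σ₁.prod σ₂).TG) : L2 (Γ₁ × Γ₂) →L[ℂ] L2 (Γ₁ × Γ₂)) = tens 1 b := rfl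

theorem coe_inl_mul_inr (a : σ₁.TG) (b : σ₂.TG) :
    ((σ₁.inl σ₂ a * σ₁.inr σ₂ b : (σ₁.prod σ₂).TG) : L2 (Γ₁ × Γ₂) →L[ℂ] L2 (Γ₁ × Γ₂))
      = tens a b := by
  show tens (a : L2 Γ₁ →L[ℂ] L2 Γ₁) 1 * tens 1 (b : L2 Γ₂ →L[ℂ] L2 Γ₂) = _
  rw [tens_mul, mul_one, one_mul]

theorem isMinTensorProduct : IsMinTensorProduct (σ₁.inl σ₂) (σ₁.inr σ₂) where
  commute a b := by
    apply Subtype.ext
    rw [coe_inl_mul_inr]
    show _ = tens 1 (b : L2 Γ₂ →L[ℂ] L2 Γ₂) * tens (a : L2 Γ₁ →L[ℂ] L2 Γ₁) 1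
    rw [tens_mul, mul_one, one_mul]
  dense := by
    rw [eq_top_iff]
    intro x _
    rw [← SetLike.mem_coe, Submodule.topologicalClosure_coe, Metric.mem_closure_iff]
    intro ε hε
    obtain ⟨f, hf⟩ := (σ₁.prod σ₂).exists_approx x.2 hε
    refine ⟨⟨(σ₁.prod σ₂).Φ f, Φ_mem _ f⟩, ?_, ?_⟩
    · have h1 : (⟨(σ₁.prod σ₂).Φ f, Φ_mem _ f⟩ : (σ₁.prod σ₂).TG)
          = ∑ p ∈ f.support, f p • (⟨(σ₁.prod σ₂).U p, U_mem _ p⟩ : (σ₁.prod σ₂).TG) := by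
        apply Subtype.ext
        show (σ₁.prod σ₂).Φ f = _
        rw [Bichar.Φ, Finsupp.linearCombination_apply, Finsupp.sum]
        simp
      rw [SetLike.mem_coe, h1]
      refine sum_mem fun p _ => Submodule.smul_mem _ _ (Submodule.subset_span ?_)
      refine ⟨⟨σ₁.U p.1, U_mem _ _⟩, ⟨σ₂.U p.2, U_mem _ _⟩, ?_⟩
      apply Subtype.ext
      rw [coe_inl_mul_inr, tens_U]
    · rw [Subtype.dist_eq, dist_eq_norm]
      exact hf
  norm_eq := by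
    refine ⟨L2 Γ₁, L2 Γ₂, inferInstance, inferInstance, inferInstance, inferInstance,
      inferInstance, inferInstance, σ₁.TG.subtype, σ₂.TG.subtype, Subtype.val_injective,
      Subtype.val_injective, fun n a b => ?_⟩
    have h1 : ((∑ k, σ₁.inl σ₂ (a k) * σ₁.inr σ₂ (b k) : (σ₁.prod σ₂).TG) :
        L2 (Γ₁ × Γ₂) →L[ℂ] L2 (Γ₁ × Γ₂)) = ∑ k, tens (a k) (b k) := by
      rw [AddSubmonoidClass.coe_finsetSum]
      refine Finset.sum_congr rfl fun k _ => ?_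
      exact σ₁.coe_inl_mul_inr σ₂ _ _
    show ‖((∑ k, σ₁.inl σ₂ (a k) * σ₁.inr σ₂ (b k) : (σ₁.prod σ₂).TG) :
        L2 (Γ₁ × Γ₂) →L[ℂ] L2 (Γ₁ × Γ₂))‖ = _
    rw [h1, norm_sum_tens]
    rfl

end Bichar

end Pool.Agent.Work.MP_7f0ddb_an
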