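import Mathlib
import Pool.Agent.Work.MP_7f0ddb_an.Product

open scoped ENNReal InnerProductSpace ComplexConjugate TensorProduct

set_option linter.unusedSectionVars false

namespace Pool.Agent.Work.MP_7f0ddb_an

namespace Bichar

variable {Γ : Type} [AddCommGroup Γ] [DecidableEq Γ] (σ : Bichar Γ)

/-- Multiplication operators. -/
noncomputable def Mo (κ : Γ → Circle) : L2 Γ →L[ℂ] L2 Γ := W (Equiv.refl Γ) κ

theorem Mo_apply (κ : Γ → Circle) (ξ : L2 Γ) (i : Γ) : Mo κ ξ i = (κ i : ℂ) * ξ i := rfl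

theorem Mo_mul (κ κ' : Γ → Circle) : Mo κ * Mo κ' = Mo (fun i => κ i * κ' i) := by
  ext ξ i
  rw [mulA, Mo_apply, Mo_apply, Mo_apply, Circle.coe_mul, mul_assoc]

theorem Mo_one : Mo (fun _ : Γ => 1) = 1 := W_one

theorem star_Mo (κ : Γ → Circle) : star (Mo κ) = Mo (fun i => (κ i)⁻¹) := by
  rw [Mo, star_W]
  rfl

theorem Mo_mul_star (κ : Γ → Circle) : Mo κ * star (Mo κ) = 1 := by
  rw [star_Mo, Mo_mul]
  simp [Mo_one]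

theorem star_mul_Mo (κ : Γ → Circle) : star (Mo κ) * Mo κ = 1 := by
  rw [star_Mo, Mo_mul]
  simp [Mo_one]

/-- Characters of `Γ`. -/
abbrev Ch (Γ : Type) [AddCommGroup Γ] := Multiplicative Γ →* Circle

/-- A character as a function. -/
noncomputable def cf (κ : Ch Γ) (g : Γ) : Circle := κ (Multiplicative.ofAdd g)

theorem cf_add (κ : Ch Γ) (g h : Γ) : cf κ (g + h) = cf κ g * cf κ h := by
  rw [cf, ofAdd_add, map_mul]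
  rfl

theorem cf_mul (κ κ' : Ch Γ) (g : Γ) : cf (κ * κ') g = cf κ g * cf κ' g := rfl

theorem cf_one (g : Γ) : cf (1 : Ch Γ) g = 1 := rfl

theorem Mo_U (κ : Ch Γ) (g : Γ) :
    Mo (cf κ) * σ.U g * star (Mo (cf κ)) = (cf κ g : ℂ) • σ.U g := by
  rw [star_Mo]
  ext ξ i
  rw [mulA, mulA, smulA, Mo_apply, U_apply, U_apply, Mo_apply]
  have h : cf κ i = cf κ g * cf κ (i - g) := by
    rw [← cf_add]
    congr 1
    abel
  rw [h, Circle.coe_mul]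
  have h2 : ((cf κ (i - g) : Circle) : ℂ) * (((cf κ (i - g))⁻¹ : Circle) : ℂ) = 1 := by
    rw [← Circle.coe_mul, mul_inv_cancel, Circle.coe_one]
  linear_combination ((cf κ g : Circle) : ℂ) * (σ g (i - g) : ℂ) * ξ (i - g) * h2

/-- Conjugation by a multiplication operator. -/
noncomputable def conjL (κ : Γ → Circle) :
    (L2 Γ →L[ℂ] L2 Γ) →L[ℂ] (L2 Γ →L[ℂ] L2 Γ) :=
  ((ContinuousLinearMap.mul ℂ (L2 Γ →L[ℂ] L2 Γ)).flip (star (Mo κ))).comp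
    (ContinuousLinearMap.mul ℂ (L2 Γ →L[ℂ] L2 Γ) (Mo κ))

theorem conjL_apply (κ : Γ → Circle) (x : L2 Γ →L[ℂ] L2 Γ) :
    conjL κ x = Mo κ * x * star (Mo κ) := rfl

theorem conjL_mem (κ : Ch Γ) {x : L2 Γ →L[ℂ] L2 Γ} (hx : x ∈ σ.TG) :
    Mo (cf κ) * x * star (Mo (cf κ)) ∈ σ.TG := by
  have hcl : IsClosed (σ.TG : Set (L2 Γ →L[ℂ] L2 Γ)) := σ.alg.isClosed_topologicalClosure
  have := σ.mem_of_isClosed
      (Submodule.comap (conjL (cf κ)).toLinearMap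
        (Subalgebra.toSubmodule σ.TG.toSubalgebra))
      (hcl.preimage (conjL (cf κ)).continuous)
      (fun g => by
        show Mo (cf κ) * σ.U g * star (Mo (cf κ)) ∈ σ.TG
        rw [Mo_U]
        exact σ.TG.smul_mem (U_mem _ _) _) hx
  exact this

/-- The dual automorphism, as a `*`-homomorphism. -/
noncomputable def dualHom (κ : Ch Γ) : σ.TG →⋆ₐ[ℂ] σ.TG where
  toFun x := ⟨Mo (cf κ) * x * star (Mo (cf κ)), σ.conjL_mem κ x.2⟩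
  map_one' := Subtype.ext (by
    show Mo (cf κ) * (1 : L2 Γ →L[ℂ] L2 Γ) * star (Mo (cf κ)) = 1
    rw [mul_one, Mo_mul_star])
  map_mul' x y := Subtype.ext (by
    show Mo (cf κ) * ((x : L2 Γ →L[ℂ] L2 Γ) * (y : L2 Γ →L[ℂ] L2 Γ)) * star (Mo (cf κ)) =
      (Mo (cf κ) * (x : L2 Γ →L[ℂ] L2 Γ) * star (Mo (cf κ))) *
        (Mo (cf κ) * (y : L2 Γ →L[ℂ] L2 Γ) * star (Mo (cf κ)))
    calc Mo (cf κ) * ((x : L2 Γ →L[ℂ] L2 Γ) * (y : L2 Γ →L[ℂ] L2 Γ)) * star (Mo (cf κ))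
        = Mo (cf κ) * (x : L2 Γ →L[ℂ] L2 Γ) * (star (Mo (cf κ)) * Mo (cf κ)) *
            (y : L2 Γ →L[ℂ] L2 Γ) * star (Mo (cf κ)) := by
          rw [star_mul_Mo, mul_one]
          simp only [mul_assoc]
      _ = _ := by simp only [mul_assoc])
  map_zero' := Subtype.ext (by
    show Mo (cf κ) * (0 : L2 Γ →L[ℂ] L2 Γ) * star (Mo (cf κ)) = 0
    rw [mul_zero, zero_mul])
  map_add' x y := Subtype.ext (by
    show Mo (cf κ) * ((x : L2 Γ →L[ℂ] L2 Γ) + (y : L2 Γ →L[ℂ] L2 Γ)) * star (Mo (cf κ)) =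
      (Mo (cf κ) * (x : L2 Γ →L[ℂ] L2 Γ) * star (Mo (cf κ))) +
        (Mo (cf κ) * (y : L2 Γ →L[ℂ] L2 Γ) * star (Mo (cf κ)))
    rw [mul_add, add_mul])
  commutes' r := Subtype.ext (by
    show Mo (cf κ) * (algebraMap ℂ (L2 Γ →L[ℂ] L2 Γ) r) * star (Mo (cf κ)) =
      algebraMap ℂ (L2 Γ →L[ℂ] L2 Γ) r
    rw [Algebra.algebraMap_eq_smul_one, mul_smul_comm, smul_mul_assoc, mul_one, Mo_mul_star])
  map_star' x := Subtype.ext (by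
    show Mo (cf κ) * star (x : L2 Γ →L[ℂ] L2 Γ) * star (Mo (cf κ)) =
      star (Mo (cf κ) * (x : L2 Γ →L[ℂ] L2 Γ) * star (Mo (cf κ)))
    rw [star_mul, star_mul, star_star, mul_assoc])

theorem coe_dualHom (κ : Ch Γ) (x : σ.TG) :
    ((σ.dualHom κ x : σ.TG) : L2 Γ →L[ℂ] L2 Γ) = Mo (cf κ) * x * star (Mo (cf κ)) := rfl

theorem dualHom_mul (κ κ' : Ch Γ) (x : σ.TG) :
    σ.dualHom (κ * κ') x = σ.dualHom κ (σ.dualHom κ' x) := by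
  apply Subtype.ext
  rw [coe_dualHom, coe_dualHom, coe_dualHom]
  have h : (Mo (cf (κ * κ')) : L2 Γ →L[ℂ] L2 Γ) = Mo (cf κ) * Mo (cf κ') := by
    rw [Mo_mul]
    rfl
  rw [h, star_mul]
  simp only [mul_assoc]

theorem dualHom_one (x : σ.TG) : σ.dualHom 1 x = x := by
  apply Subtype.ext
  rw [coe_dualHom]
  have h : (Mo (cf (1 : Ch Γ)) : L2 Γ →L[ℂ] L2 Γ) = 1 := Mo_one
  rw [h, star_one, one_mul, mul_one]

/-- The dual action. -/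
noncomputable def dual : Ch Γ →* (σ.TG ≃⋆ₐ[ℂ] σ.TG) where
  toFun κ := StarAlgEquiv.ofStarAlgHom (σ.dualHom κ) (σ.dualHom κ⁻¹)
    (by
      ext1 x
      show σ.dualHom κ⁻¹ (σ.dualHom κ x) = x
      rw [← dualHom_mul, inv_mul_cancel, dualHom_one])
    (by
      ext1 x
      show σ.dualHom κ (σ.dualHom κ⁻¹ x) = x
      rw [← dualHom_mul, mul_inv_cancel, dualHom_one])
  map_one' := by
    ext1 x
    exact σ.dualHom_one x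
  map_mul' κ κ' := by
    ext1 x
    exact σ.dualHom_mul κ κ' x

theorem dual_apply (κ : Ch Γ) (x : σ.TG) : σ.dual κ x = σ.dualHom κ x := rfl

theorem coe_dual (κ : Ch Γ) (x : σ.TG) :
    ((σ.dual κ x : σ.TG) : L2 Γ →L[ℂ] L2 Γ) = Mo (cf κ) * x * star (Mo (cf κ)) := rfl

theorem norm_Mo_le (κ : Γ → Circle) : ‖(Mo κ : L2 Γ →L[ℂ] L2 Γ)‖ ≤ 1 := norm_W_le _ _

theorem norm_dual_le (κ : Ch Γ) (x : σ.TG) : ‖σ.dual κ x‖ ≤ ‖x‖ := by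
  show ‖Mo (cf κ) * (x : L2 Γ →L[ℂ] L2 Γ) * star (Mo (cf κ))‖ ≤ ‖(x : L2 Γ →L[ℂ] L2 Γ)‖
  calc ‖Mo (cf κ) * (x : L2 Γ →L[ℂ] L2 Γ) * star (Mo (cf κ))‖
      ≤ ‖Mo (cf κ) * (x : L2 Γ →L[ℂ] L2 Γ)‖ * ‖star (Mo (cf κ) : L2 Γ →L[ℂ] L2 Γ)‖ :=
        norm_mul_le _ _
    _ ≤ ‖Mo (cf κ) * (x : L2 Γ →L[ℂ] L2 Γ)‖ * 1 := by
        gcongr
        rw [star_Mo]
        exact norm_Mo_le _
    _ ≤ (‖(Mo (cf κ) : L2 Γ →L[ℂ] L2 Γ)‖ * ‖(x : L2 Γ →L[ℂ] L2 Γ)‖) * 1 := by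
        gcongr
        exact norm_mul_le _ _
    _ ≤ (1 * ‖(x : L2 Γ →L[ℂ] L2 Γ)‖) * 1 := by
        gcongr
        exact norm_Mo_le _
    _ = _ := by ring

end Bichar

namespace Bichar

variable {Γ₁ Γ₂ : Type} [AddCommGroup Γ₁] [DecidableEq Γ₁] [AddCommGroup Γ₂] [DecidableEq Γ₂]
  (σ₁ : Bichar Γ₁) (σ₂ : Bichar Γ₂)

/-- The product of two characters. -/
noncomputable def pc (κ₁ : Ch Γ₁) (κ₂ : Ch Γ₂) : Ch (Γ₁ × Γ₂) where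
  toFun p := cf κ₁ (Multiplicative.toAdd p).1 * cf κ₂ (Multiplicative.toAdd p).2
  map_one' := by
    show cf κ₁ 0 * cf κ₂ 0 = 1
    simp [cf]
  map_mul' p q := by
    rw [toAdd_mul, Prod.fst_add, Prod.snd_add, cf_add, cf_add, mul_mul_mul_comm]

theorem cf_pc (κ₁ : Ch Γ₁) (κ₂ : Ch Γ₂) (p : Γ₁ × Γ₂) :
    cf (pc κ₁ κ₂) p = cf κ₁ p.1 * cf κ₂ p.2 := rfl

theorem tens_Mo (κ₁ : Ch Γ₁) (κ₂ : Ch Γ₂) :
    tens (Mo (cf κ₁)) (Mo (cf κ₂)) = Mo (cf (pc κ₁ κ₂)) := by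
  rw [Mo, Mo, Mo, tens_W]
  rfl

theorem dual_inl_mul_inr (κ₁ : Ch Γ₁) (κ₂ : Ch Γ₂) (a : σ₁.TG) (b : σ₂.TG) :
    (σ₁.prod σ₂).dual (pc κ₁ κ₂) (σ₁.inl σ₂ a * σ₁.inr σ₂ b)
      = σ₁.inl σ₂ (σ₁.dual κ₁ a) * σ₁.inr σ₂ (σ₂.dual κ₂ b) := by
  apply Subtype.ext
  rw [coe_dual, coe_inl_mul_inr, coe_inl_mul_inr, coe_dual, coe_dual, ← tens_Mo, star_tens,
    tens_mul, tens_mul]

end Bichar

end Pool.Agent.Work.MP_7f0ddb_an
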