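import Mathlib
import Pool.Agent.Work.MP_7f0ddb_an.TGA

open scoped ENNReal InnerProductSpace ComplexConjugate

set_option linter.unusedSectionVars false

namespace Pool.Agent.Work.MP_7f0ddb_an

namespace Bichar

variable {Γ : Type*} [AddCommGroup Γ] [DecidableEq Γ] (σ : Bichar Γ)

/-- Every nonzero element of the group is moved by a commutation of finite order. -/
def Nondeg : Prop := ∀ h : Γ, h ≠ 0 → ∃ (g : Γ) (k : ℕ), 0 < k ∧ σ.χ g h ≠ 1 ∧ (σ.χ g h) ^ k = 1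

theorem χ_zero_right (g : Γ) : σ.χ g 0 = 1 := by
  rw [χ, σ.zero_left, σ.zero_right, div_one]

theorem pow_conj (g h : Γ) (j : ℕ) :
    σ.U g ^ j * σ.U h * star (σ.U g) ^ j = ((σ.χ g h : ℂ) ^ j) • σ.U h := by
  induction j with
  | zero => simp
  | succ j ih =>
    rw [pow_succ' (σ.U g), pow_succ (star (σ.U g)), pow_succ']
    calc σ.U g * σ.U g ^ j * σ.U h * (star (σ.U g) ^ j * star (σ.U g))
        = σ.U g * (σ.U g ^ j * σ.U h * star (σ.U g) ^ j) * star (σ.U g) := by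
          simp only [mul_assoc]
      _ = _ := by
          rw [ih, mul_smul_comm, smul_mul_assoc, U_conj, smul_smul, mul_comm]

/-- Averages of conjugates. -/
noncomputable def EE (g : Γ) (k : ℕ) (y : L2 Γ →L[ℂ] L2 Γ) : L2 Γ →L[ℂ] L2 Γ :=
  (k : ℂ)⁻¹ • ∑ j ∈ Finset.range k, σ.U g ^ j * y * star (σ.U g) ^ j

theorem norm_pow_U_le (g : Γ) (j : ℕ) : ‖σ.U g ^ j‖ ≤ 1 := by
  induction j with
  | zero =>
    rw [pow_zero]
    exact ContinuousLinearMap.norm_id_le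
  | succ j ih =>
    rw [pow_succ]
    exact (norm_mul_le _ _).trans (mul_le_one₀ ih (norm_nonneg _) (σ.norm_U_le g))

theorem norm_EE_le (g : Γ) {k : ℕ} (hk : 0 < k) (y : L2 Γ →L[ℂ] L2 Γ) :
    ‖σ.EE g k y‖ ≤ ‖y‖ := by
  have h1 : ‖∑ j ∈ Finset.range k, σ.U g ^ j * y * star (σ.U g) ^ j‖ ≤ k * ‖y‖ := by
    refine (norm_sum_le _ _).trans ?_
    have h2 : ∀ j ∈ Finset.range k, ‖σ.U g ^ j * y * star (σ.U g) ^ j‖ ≤ ‖y‖ := by
      intro j _
      have h3 : ‖star (σ.U g) ^ j‖ ≤ 1 := by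
        rw [← star_pow]
        exact (norm_star (σ.U g ^ j)).trans_le (σ.norm_pow_U_le g j)
      calc ‖σ.U g ^ j * y * star (σ.U g) ^ j‖ ≤ ‖σ.U g ^ j * y‖ * ‖star (σ.U g) ^ j‖ :=
            norm_mul_le _ _
        _ ≤ ‖σ.U g ^ j * y‖ * 1 := by gcongr
        _ ≤ (‖σ.U g ^ j‖ * ‖y‖) * 1 := by gcongr; exact norm_mul_le _ _
        _ ≤ (1 * ‖y‖) * 1 := by gcongr; exact σ.norm_pow_U_le g j
        _ = ‖y‖ := by ring
    refine (Finset.sum_le_sum h2).trans ?_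
    simp
  rw [EE, norm_smul, norm_inv, Complex.norm_natCast]
  have hk' : (0 : ℝ) < k := by exact_mod_cast hk
  rw [inv_mul_le_iff₀ hk']
  exact h1

theorem EE_sub (g : Γ) (k : ℕ) (x y : L2 Γ →L[ℂ] L2 Γ) :
    σ.EE g k (x - y) = σ.EE g k x - σ.EE g k y := by
  simp only [EE, mul_sub, sub_mul, Finset.sum_sub_distrib, smul_sub]

/-- The coefficient appearing in `EE`. -/
noncomputable def coef (g : Γ) (k : ℕ) (h : Γ) : ℂ :=
  (k : ℂ)⁻¹ * ∑ j ∈ Finset.range k, (σ.χ g h : ℂ) ^ j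

theorem coef_zero (g : Γ) {k : ℕ} (hk : 0 < k) : σ.coef g k 0 = 1 := by
  rw [coef, χ_zero_right]
  have : (k : ℂ) ≠ 0 := by exact_mod_cast hk.ne'
  simp [this]

theorem coef_eq_zero {g h : Γ} {k : ℕ} (h1 : σ.χ g h ≠ 1) (h2 : (σ.χ g h) ^ k = 1) :
    σ.coef g k h = 0 := by
  have h3 : (σ.χ g h : ℂ) ≠ 1 := fun h => h1 (Circle.coe_eq_one.1 h)
  rw [coef, geom_sum_eq h3]
  have h4 : (σ.χ g h : ℂ) ^ k = 1 := by rw [← Circle.coe_pow, h2, Circle.coe_one]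
  rw [h4]
  simp

/-- The coefficients of `EE (Φ f)`. -/
noncomputable def Ef (g : Γ) (k : ℕ) (f : Γ →₀ ℂ) : Γ →₀ ℂ :=
  Finsupp.onFinset f.support (fun h => f h * σ.coef g k h) fun h hh => by
    rw [Finsupp.mem_support_iff]
    exact left_ne_zero_of_mul hh

theorem Ef_apply (g : Γ) (k : ℕ) (f : Γ →₀ ℂ) (h : Γ) : σ.Ef g k f h = f h * σ.coef g k h := rfl

theorem EE_Φ (g : Γ) (k : ℕ) (f : Γ →₀ ℂ) : σ.EE g k (σ.Φ f) = σ.Φ (σ.Ef g k f) := by
  have h1 : σ.Φ f = ∑ h ∈ f.support, f h • σ.U h := by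
    rw [Φ, Finsupp.linearCombination_apply, Finsupp.sum]
  have h2 : σ.Φ (σ.Ef g k f) = ∑ h ∈ f.support, (f h * σ.coef g k h) • σ.U h := by
    rw [Φ, Finsupp.linearCombination_apply, Ef, Finsupp.onFinset_sum]
    intro a
    simp
  rw [h1, h2, EE]
  simp only [Finset.mul_sum, Finset.sum_mul, mul_smul_comm, smul_mul_assoc, pow_conj]
  rw [Finset.sum_comm, Finset.smul_sum]
  refine Finset.sum_congr rfl fun h _ => ?_
  rw [← Finset.smul_sum, ← Finset.sum_smul, smul_smul, smul_smul, coef]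
  congr 1
  ring

theorem mem_TG_iff' {x : L2 Γ →L[ℂ] L2 Γ} : x ∈ σ.TG ↔ x ∈ (σ.TG : Set _) := Iff.rfl

/-- The element `U g` of the algebra. -/
noncomputable def u (g : Γ) : σ.TG := ⟨σ.U g, σ.U_mem g⟩

theorem EE_mem (g : Γ) (k : ℕ) (I : TwoSidedIdeal σ.TG) {y : σ.TG} (hy : y ∈ I) :
    ∃ y' : σ.TG, y' ∈ I ∧ (y' : L2 Γ →L[ℂ] L2 Γ) = σ.EE g k y := by
  refine ⟨(k : ℂ)⁻¹ • ∑ j ∈ Finset.range k, σ.u g ^ j * y * star (σ.u g) ^ j, ?_, ?_⟩
  · rw [← smul_one_mul]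
    refine I.mul_mem_left _ _ ?_
    refine sum_mem fun j _ => ?_
    exact I.mul_mem_right _ _ (I.mul_mem_left _ _ hy)
  · rw [EE]
    simp [u]

/-- The main averaging step. -/
theorem exists_mem_near (hσ : σ.Nondeg) (I : TwoSidedIdeal σ.TG) (F : Finset Γ) :
    ∀ (f : Γ →₀ ℂ) (y : σ.TG), f.support ⊆ insert 0 F → y ∈ I →
      ∃ y' : σ.TG, y' ∈ I ∧
        ‖(y' : L2 Γ →L[ℂ] L2 Γ) - f 0 • (1 : L2 Γ →L[ℂ] L2 Γ)‖ ≤
          ‖(y : L2 Γ →L[ℂ] L2 Γ) - σ.Φ f‖ := by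
  induction F using Finset.induction_on with
  | empty =>
    intro f y hf hy
    refine ⟨y, hy, le_of_eq ?_⟩
    have h1 : f = Finsupp.single 0 (f 0) := by
      refine Finsupp.eq_single_iff.2 ⟨hf, rfl⟩
    conv_rhs => rw [h1, Φ_single, U_zero]
  | insert h F hF ih =>
    intro f y hf hy
    rcases eq_or_ne h 0 with rfl | h0
    · exact ih f y (by simpa using hf) hy
    · obtain ⟨g, k, hk, h1, h2⟩ := hσ h h0
      obtain ⟨y1, hy1, hy1'⟩ := σ.EE_mem g k I hy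
      obtain ⟨y', hy', hle⟩ := ih (σ.Ef g k f) y1 (by
        intro a ha
        rw [Finsupp.mem_support_iff, Ef_apply] at ha
        have ha1 : a ∈ f.support := Finsupp.mem_support_iff.2 (left_ne_zero_of_mul ha)
        have ha2 := hf ha1
        rw [Finset.mem_insert, Finset.mem_insert] at ha2
        rw [Finset.mem_insert]
        rcases ha2 with ha2 | ha2 | ha2
        · exact Or.inl ha2
        · rw [ha2, σ.coef_eq_zero h1 h2, mul_zero] at ha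
          exact absurd rfl ha
        · exact Or.inr ha2) hy1
      refine ⟨y', hy', ?_⟩
      rw [Ef_apply, σ.coef_zero g hk, mul_one] at hle
      refine hle.trans ?_
      rw [hy1', ← EE_Φ, ← EE_sub]
      exact σ.norm_EE_le g hk _

theorem norm_δ (i : Γ) : ‖(δ i : L2 Γ)‖ = 1 := by
  rw [δ, lp.norm_single (by norm_num)]
  simp

theorem norm_τ_le (x : L2 Γ →L[ℂ] L2 Γ) : ‖τ x‖ ≤ ‖x‖ := by
  have h1 : ‖x (δ 0) 0‖ ≤ ‖x (δ 0)‖ := lp.norm_apply_le_norm (by norm_num) _ _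
  refine h1.trans ((x.le_opNorm _).trans ?_)
  rw [norm_δ, mul_one]

/-- The twisted group `C*`-algebra of a nondegenerate bicharacter is simple. -/
theorem isSimpleRing (hσ : σ.Nondeg) : IsSimpleRing σ.TG := by
  have hnt : Nontrivial σ.TG := by
    refine ⟨⟨0, 1, fun h => ?_⟩⟩
    have h1 : (0 : L2 Γ →L[ℂ] L2 Γ) = 1 := congrArg Subtype.val h
    have h2 := congrArg (fun T : L2 Γ →L[ℂ] L2 Γ => ‖T (δ 0)‖) h1
    simp [norm_δ] at h2
  refine IsSimpleRing.of_eq_bot_or_eq_top fun I => ?_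
  by_cases hI : ∃ x ∈ I, x ≠ 0
  · right
    obtain ⟨x, hxI, hx0⟩ := hI
    set y : σ.TG := star x * x with hy
    have hyI : y ∈ I := I.mul_mem_left _ _ hxI
    set t : ℝ := ‖(x : L2 Γ →L[ℂ] L2 Γ) (δ 0)‖ ^ 2 with ht
    have htpos : 0 < t := by
      have : (x : L2 Γ →L[ℂ] L2 Γ) (δ 0) ≠ 0 := fun h0 =>
        hx0 (Subtype.ext (σ.eq_zero_of_apply_δ x.2 h0))
      positivity
    have hτ : τ (y : L2 Γ →L[ℂ] L2 Γ) = (t : ℂ) := by
      rw [hy]
      exact τ_star_mul_self _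
    obtain ⟨f, hf⟩ := σ.exists_approx y.2 (ε := t / 3) (by positivity)
    obtain ⟨y', hy'I, hy'⟩ := σ.exists_mem_near hσ I f.support f y (Finset.subset_insert _ _) hyI
    have h1 : ‖f 0 - (t : ℂ)‖ < t / 3 := by
      rw [← σ.τ_Φ f, ← hτ, ← τL_apply, ← τL_apply, ← map_sub, τL_apply]
      refine (norm_τ_le _).trans_lt ?_
      rwa [norm_sub_rev]
    have h2 : ‖(y' : L2 Γ →L[ℂ] L2 Γ) - (t : ℂ) • 1‖ < t := by
      calc ‖(y' : L2 Γ →L[ℂ] L2 Γ) - (t : ℂ) • (1 : L2 Γ →L[ℂ] L2 Γ)‖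
          = ‖((y' : L2 Γ →L[ℂ] L2 Γ) - f 0 • (1 : L2 Γ →L[ℂ] L2 Γ))
              + (f 0 - (t : ℂ)) • (1 : L2 Γ →L[ℂ] L2 Γ)‖ := by
            congr 1; rw [sub_smul]; abel
        _ ≤ ‖(y' : L2 Γ →L[ℂ] L2 Γ) - f 0 • (1 : L2 Γ →L[ℂ] L2 Γ)‖
              + ‖(f 0 - (t : ℂ)) • (1 : L2 Γ →L[ℂ] L2 Γ)‖ := norm_add_le _ _
        _ ≤ t / 3 + t / 3 := by
            refine add_le_add (hy'.trans hf.le) ?_
            rw [norm_smul]
            refine (mul_le_of_le_one_right (norm_nonneg _) ?_).trans h1.le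
            exact ContinuousLinearMap.norm_id_le
        _ < t := by linarith
    have h3 : IsUnit ((t : ℂ)⁻¹ • y' : σ.TG) := by
      have h4 : ((t : ℂ)⁻¹ • y' : σ.TG) = 1 - (1 - (t : ℂ)⁻¹ • y') := by abel
      rw [h4]
      refine isUnit_one_sub_of_norm_lt_one ?_
      have h5 : (1 - (t : ℂ)⁻¹ • y' : σ.TG) = -((t : ℂ)⁻¹ • (y' - (t : ℂ) • 1)) := by
        rw [smul_sub, smul_smul, inv_mul_cancel₀ (by exact_mod_cast htpos.ne'), one_smul]
        abel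
      rw [h5, norm_neg, norm_smul, norm_inv, Complex.norm_real, Real.norm_of_nonneg htpos.le,
        inv_mul_lt_iff₀ htpos, mul_one]
      exact h2
    rw [← smul_one_mul] at h3
    have h6 : (t : ℂ)⁻¹ • (1 : σ.TG) * y' ∈ I := I.mul_mem_left _ _ hy'I
    obtain ⟨v, hv⟩ := h3.exists_right_inv
    have h7 : (1 : σ.TG) ∈ I := by
      rw [← hv]
      exact I.mul_mem_right _ _ h6
    rw [eq_top_iff]
    intro z _
    have := I.mul_mem_left z 1 h7
    rwa [mul_one] at this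
  · left
    push Not at hI
    rw [eq_bot_iff]
    intro z hz
    rw [hI z hz]
    exact TwoSidedIdeal.zero_mem _

/-- Isometries in matrix algebras over the twisted group `C*`-algebra are unitary. -/
theorem stablyFinite (n : ℕ) (v : Matrix (Fin n) (Fin n) σ.TG) (hv : star v * v = 1) :
    v * star v = 1 := by
  set w : Matrix (Fin n) (Fin n) σ.TG := 1 - v * star v with hw
  have hws : star w = w := by
    rw [hw, star_sub, star_one, star_mul, star_star]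
  have hww : w * w = w := by
    have h1 : v * star v * (v * star v) = v * star v := by
      calc v * star v * (v * star v) = v * (star v * v) * star v := by simp only [mul_assoc]
        _ = v * star v := by rw [hv, mul_one]
    rw [hw]
    simp only [mul_sub, sub_mul, mul_one, one_mul, h1]
    abel
  -- the trace of `w` vanishes
  have htr : ∑ i, τ ((w i i : σ.TG) : L2 Γ →L[ℂ] L2 Γ) = 0 := by
    have e1 : ∀ i, τ ((w i i : σ.TG) : L2 Γ →L[ℂ] L2 Γ)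
        = 1 - ∑ k, τ ((v i k : L2 Γ →L[ℂ] L2 Γ) * star (v i k : L2 Γ →L[ℂ] L2 Γ)) := by
      intro i
      have h2 : ((w i i : σ.TG) : L2 Γ →L[ℂ] L2 Γ)
          = 1 - ∑ k, (v i k : L2 Γ →L[ℂ] L2 Γ) * star (v i k : L2 Γ →L[ℂ] L2 Γ) := by
        rw [hw]
        simp [Matrix.mul_apply, Matrix.star_apply]
      rw [h2, ← τL_apply, map_sub, map_sum, τL_apply]
      have := σ.τ_U 0
      rw [U_zero] at this
      rw [this]
      simp [τL_apply]
    have e2 : ∀ k, ∑ i, τ (star (v i k : L2 Γ →L[ℂ] L2 Γ) * (v i k : L2 Γ →L[ℂ] L2 Γ)) = 1 := by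
      intro k
      have h3 : ((star v * v) k k : L2 Γ →L[ℂ] L2 Γ)
          = ∑ i, star (v i k : L2 Γ →L[ℂ] L2 Γ) * (v i k : L2 Γ →L[ℂ] L2 Γ) := by
        simp [Matrix.mul_apply, Matrix.star_apply]
      have h4 : τ (((star v * v) k k : σ.TG) : L2 Γ →L[ℂ] L2 Γ) = 1 := by
        rw [hv, Matrix.one_apply_eq]
        have := σ.τ_U 0
        rw [U_zero] at this
        simpa using this
      rw [h3, ← τL_apply, map_sum] at h4
      simpa [τL_apply] using h4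
    simp_rw [e1]
    rw [Finset.sum_sub_distrib, Finset.sum_comm]
    have e3 : ∀ i k, τ ((v i k : L2 Γ →L[ℂ] L2 Γ) * star (v i k : L2 Γ →L[ℂ] L2 Γ))
        = τ (star (v i k : L2 Γ →L[ℂ] L2 Γ) * (v i k : L2 Γ →L[ℂ] L2 Γ)) :=
      fun i k => σ.τ_mul_comm (v i k).2 (star_mem (v i k).2)
    simp_rw [e3, e2]
    simp
  have hdiag : ∀ i, τ ((w i i : σ.TG) : L2 Γ →L[ℂ] L2 Γ)
      = ((∑ k, ‖(w k i : L2 Γ →L[ℂ] L2 Γ) (δ 0)‖ ^ 2 : ℝ) : ℂ) := by
    intro i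
    have h5 : ((w i i : σ.TG) : L2 Γ →L[ℂ] L2 Γ)
        = ∑ k, star (w k i : L2 Γ →L[ℂ] L2 Γ) * (w k i : L2 Γ →L[ℂ] L2 Γ) := by
      conv_lhs => rw [← hww]
      nth_rw 1 [← hws]
      simp [Matrix.mul_apply, Matrix.star_apply]
    rw [h5, ← τL_apply, map_sum]
    push_cast
    refine Finset.sum_congr rfl fun k _ => ?_
    rw [τL_apply, τ_star_mul_self]
    push_cast
    rfl
  have hzero : ∀ i k, w k i = 0 := by
    simp_rw [hdiag] at htr
    have h6 : ∑ i, ∑ k, ‖(w k i : L2 Γ →L[ℂ] L2 Γ) (δ 0)‖ ^ 2 = 0 := by exact_mod_cast htr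
    intro i k
    have h7 := (Finset.sum_eq_zero_iff_of_nonneg (fun i _ =>
      Finset.sum_nonneg fun k _ => sq_nonneg _)).1 h6 i (Finset.mem_univ _)
    have h8 := (Finset.sum_eq_zero_iff_of_nonneg (fun k _ => sq_nonneg _)).1 h7 k
      (Finset.mem_univ _)
    have h9 : (w k i : L2 Γ →L[ℂ] L2 Γ) (δ 0) = 0 := by
      rwa [sq_eq_zero_iff, norm_eq_zero] at h8
    exact Subtype.ext (σ.eq_zero_of_apply_δ (w k i).2 h9)
  have hw0 : w = 0 := by
    ext i k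
    rw [hzero k i]
    rfl
  rw [hw, sub_eq_zero] at hw0
  exact hw0.symm

end Bichar

end Pool.Agent.Work.MP_7f0ddb_an
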