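import Mathlib
import Pool.Agent.Work.MP_7f0ddb_an.Dual
import Pool.Agent.Work.MP_7f0ddb_an.Simple

open scoped ENNReal InnerProductSpace ComplexConjugate TensorProduct

set_option linter.unusedSectionVars false

namespace Pool.Agent.Work.MP_7f0ddb_an

/-- The group of roots of unity of order a power of `3`. -/
noncomputable def R3 : Subgroup Circle where
  carrier := {z | ∃ n : ℕ, z ^ (3 ^ n) = 1}
  mul_mem' := by
    rintro a b ⟨n, hn⟩ ⟨m, hm⟩
    refine ⟨n + m, ?_⟩
    rw [mul_pow, pow_add, pow_mul, hn, one_pow, one_mul, mul_comm, pow_mul, hm, one_pow]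
  one_mem' := ⟨0, one_pow _⟩
  inv_mem' := by
    rintro a ⟨n, hn⟩
    exact ⟨n, by rw [inv_pow, hn, inv_one]⟩

/-- `R3`, written additively. -/
abbrev RA : Type := Additive R3

noncomputable instance : DecidableEq RA := Classical.decEq _

/-- The root of unity underlying an element of `RA`. -/
noncomputable def zz (ζ : RA) : Circle := ((Additive.toMul ζ : R3) : Circle)

theorem zz_add (a b : RA) : zz (a + b) = zz a * zz b := rfl

theorem zz_zero : zz 0 = 1 := rfl

theorem zz_neg (a : RA) : zz (-a) = (zz a)⁻¹ := rfl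

theorem zz_sub (a b : RA) : zz (a - b) = zz a / zz b := rfl

theorem zz_inj {a b : RA} (h : zz a = zz b) : a = b :=
  Additive.toMul.injective (Subtype.ext h)

theorem zz_pow (ζ : RA) : ∃ n : ℕ, zz ζ ^ (3 ^ n) = 1 := (Additive.toMul ζ : R3).2

/-- The group `ℤ × R3`. -/
abbrev GA : Type := ℤ × RA

/-- The bicharacter on `ℤ × R3`. -/
noncomputable def σA : Bichar GA where
  toFun p q := zz p.2 ^ q.1
  add_left p p' q := by rw [Prod.snd_add, zz_add, mul_zpow]
  add_right p q q' := by rw [Prod.fst_add, zpow_add]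

theorem σA_apply (p q : GA) : σA p q = zz p.2 ^ q.1 := rfl

theorem nondeg_A : σA.Nondeg := by
  rintro ⟨m, ζ⟩ h
  by_cases hm : m = 0
  · subst hm
    obtain ⟨n, hn⟩ := zz_pow ζ
    refine ⟨(1, 0), 3 ^ n, by positivity, ?_, ?_⟩
    · rw [Bichar.χ, σA_apply, σA_apply]
      intro h1
      simp only [zpow_zero, zpow_one, one_div, inv_eq_one] at h1
      exact h (Prod.ext rfl (zz_inj h1))
    · rw [Bichar.χ, σA_apply, σA_apply]
      simp [hn]
  · set N : ℕ := 3 ^ m.natAbs with hN
    have hNpos : 0 < N := by positivity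
    have : NeZero N := ⟨hNpos.ne'⟩
    have hmem : (ZMod.toCircle (1 : ZMod N)) ∈ R3 := by
      refine ⟨m.natAbs, ?_⟩
      rw [← hN, ← AddChar.map_nsmul_eq_pow]
      simp
    set ω : RA := Additive.ofMul ⟨ZMod.toCircle (1 : ZMod N), hmem⟩ with hω
    have hzω : zz ω = ZMod.toCircle (1 : ZMod N) := rfl
    refine ⟨(0, ω), N, hNpos, ?_, ?_⟩
    · rw [Bichar.χ, σA_apply, σA_apply]
      simp only [zpow_zero, div_one]
      rw [hzω, ← AddChar.map_zsmul_eq_zpow]
      intro h1
      have h2 : m • (1 : ZMod N) = 0 :=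
        ZMod.injective_toCircle (h1.trans (AddChar.map_zero_eq_one _).symm)
      rw [zsmul_one, ZMod.intCast_zmod_eq_zero_iff_dvd] at h2
      have h3 := Int.natAbs_dvd_natAbs.2 h2
      rw [Int.natAbs_natCast] at h3
      have h4 := Nat.le_of_dvd (Int.natAbs_pos.2 hm) h3
      exact absurd h4 (not_le.2 (Nat.lt_pow_self (by norm_num)))
    · rw [Bichar.χ, σA_apply, σA_apply]
      simp only [zpow_zero, div_one]
      rw [hzω, ← zpow_natCast, ← zpow_mul, mul_comm, zpow_mul, zpow_natCast,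
        ← AddChar.map_nsmul_eq_pow]
      simp

/-- Finitely supported sequences in `ZMod 2`. -/
abbrev F2 : Type := ℕ →₀ ZMod 2

/-- The pairing of two finitely supported sequences. -/
def pair (T S : F2) : ZMod 2 := T.sum fun i t => t * S i

theorem pair_add_left (T T' S : F2) : pair (T + T') S = pair T S + pair T' S :=
  Finsupp.sum_add_index' (fun _ => zero_mul _) (fun _ _ _ => add_mul _ _ _)

theorem pair_add_right (T S S' : F2) : pair T (S + S') = pair T S + pair T S' := by
  rw [pair, pair, pair, ← Finsupp.sum_add]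
  refine Finsupp.sum_congr fun i _ => ?_
  rw [Finsupp.add_apply, mul_add]

theorem pair_zero_left (S : F2) : pair 0 S = 0 := Finsupp.sum_zero_index

theorem pair_zero_right (T : F2) : pair T 0 = 0 := by
  simp [pair]

theorem pair_single_left (i : ℕ) (S : F2) : pair (Finsupp.single i 1) S = S i := by
  rw [pair, Finsupp.sum_single_index] <;> simp

theorem pair_single_right (i : ℕ) (T : F2) : pair T (Finsupp.single i 1) = T i := by
  rw [pair, Finsupp.sum]
  by_cases h : i ∈ T.support
  · rw [Finset.sum_eq_single_of_mem i h]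
    · simp
    · intro j _ hj
      rw [Finsupp.single_eq_of_ne hj, mul_zero]
  · rw [Finsupp.notMem_support_iff.1 h]
    refine Finset.sum_eq_zero fun j hj => ?_
    have : j ≠ i := fun h' => h (h' ▸ hj)
    rw [Finsupp.single_eq_of_ne this, mul_zero]

/-- The group `⊕ (ZMod 2 × ZMod 2)`. -/
abbrev GB : Type := F2 × F2

/-- The bicharacter on `GB`. -/
noncomputable def σB : Bichar GB where
  toFun p q := ZMod.toCircle (pair p.2 q.1)
  add_left p p' q := by rw [Prod.snd_add, pair_add_left, AddChar.map_add_eq_mul]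
  add_right p q q' := by rw [Prod.fst_add, pair_add_right, AddChar.map_add_eq_mul]

theorem σB_apply (p q : GB) : σB p q = ZMod.toCircle (pair p.2 q.1) := rfl

theorem toCircle_sq (x : ZMod 2) : ZMod.toCircle x ^ 2 = 1 := by
  rw [← AddChar.map_nsmul_eq_pow]
  have : (2 : ℕ) • x = 0 := by
    rw [two_nsmul]
    exact CharTwo.add_self_eq_zero x
  rw [this, AddChar.map_zero_eq_one]

theorem toCircle_ne_one {x : ZMod 2} (hx : x ≠ 0) : ZMod.toCircle x ≠ 1 := fun h =>
  hx (ZMod.injective_toCircle (h.trans (AddChar.map_zero_eq_one _).symm))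

theorem χB (p q : GB) : σB.χ p q = ZMod.toCircle (pair p.2 q.1 - pair q.2 p.1) := by
  rw [Bichar.χ, σB_apply, σB_apply, AddChar.map_sub_eq_div]

theorem nondeg_B : σB.Nondeg := by
  rintro ⟨S, T⟩ h
  by_cases hS : S = 0
  · have hT : T ≠ 0 := fun hT => h (by rw [hS, hT]; rfl)
    obtain ⟨i, hi⟩ := Finsupp.ne_iff.1 hT
    refine ⟨(Finsupp.single i 1, 0), 2, by norm_num, ?_, ?_⟩
    · rw [χB]
      refine toCircle_ne_one ?_
      simp only [pair_zero_left, pair_single_right, zero_sub]
      rw [neg_ne_zero]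
      exact hi
    · rw [χB, toCircle_sq]
  · obtain ⟨i, hi⟩ := Finsupp.ne_iff.1 hS
    refine ⟨(0, Finsupp.single i 1), 2, by norm_num, ?_, ?_⟩
    · rw [χB]
      refine toCircle_ne_one ?_
      simp only [pair_zero_right, pair_single_left, sub_zero]
      exact hi
    · rw [χB, toCircle_sq]

theorem sg_mem (u : ℤˣ) : ((u : ℤ) : ℂ) ∈ Submonoid.unitSphere ℂ := by
  rw [← SetLike.mem_coe, Submonoid.coe_unitSphere, mem_sphere_zero_iff_norm]
  rcases Int.units_eq_one_or u with h | h <;> simp [h]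

/-- The sign homomorphism `ℤˣ → Circle`. -/
noncomputable def sg : ℤˣ →* Circle where
  toFun u := ⟨((u : ℤ) : ℂ), sg_mem u⟩
  map_one' := Circle.ext (by
    show (((1 : ℤˣ) : ℤ) : ℂ) = 1
    simp)
  map_mul' u v := Circle.ext (by
    show (((u * v : ℤˣ) : ℤ) : ℂ) = ((u : ℤ) : ℂ) * ((v : ℤ) : ℂ)
    push_cast
    rfl)

theorem coe_sg (u : ℤˣ) : ((sg u : Circle) : ℂ) = ((u : ℤ) : ℂ) := rfl

/-- The action of `ℤˣ` on `ℤ × R3` by characters. -/
noncomputable def κA : ℤˣ →* Bichar.Ch GA where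
  toFun u :=
    { toFun := fun p => sg u ^ (Multiplicative.toAdd p).1
      map_one' := by simp
      map_mul' := fun p q => by rw [toAdd_mul, Prod.fst_add, zpow_add] }
  map_one' := by
    ext p
    simp
  map_mul' u v := by
    refine MonoidHom.ext fun p => ?_
    show sg (u * v) ^ (Multiplicative.toAdd p).1
      = sg u ^ (Multiplicative.toAdd p).1 * sg v ^ (Multiplicative.toAdd p).1
    rw [map_mul, mul_zpow]

theorem cf_κA (u : ℤˣ) (p : GA) : Bichar.cf (κA u) p = sg u ^ p.1 := rfl

/-- The sum of the entries. -/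
def tot (S : F2) : ZMod 2 := S.sum fun _ s => s

theorem tot_add (S S' : F2) : tot (S + S') = tot S + tot S' :=
  Finsupp.sum_add_index' (fun _ => rfl) (fun _ _ _ => rfl)

theorem tot_zero : tot 0 = 0 := Finsupp.sum_zero_index

theorem tot_single (i : ℕ) : tot (Finsupp.single i 1) = 1 := by
  rw [tot, Finsupp.sum_single_index rfl]

/-- The action of `ℤˣ` on `GB` by characters. -/
noncomputable def κB : ℤˣ →* Bichar.Ch GB where
  toFun u :=
    { toFun := fun p => sg (u ^ tot (Multiplicative.toAdd p).1)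
      map_one' := by
        show sg (u ^ tot 0) = 1
        rw [tot_zero, uzpow_zero, map_one]
      map_mul' := fun p q => by
        rw [toAdd_mul, Prod.fst_add, tot_add, uzpow_add, map_mul] }
  map_one' := by
    refine MonoidHom.ext fun p => ?_
    show sg ((1 : ℤˣ) ^ tot (Multiplicative.toAdd p).1) = 1
    rw [one_uzpow, map_one]
  map_mul' u v := by
    refine MonoidHom.ext fun p => ?_
    show sg ((u * v) ^ tot (Multiplicative.toAdd p).1)
      = sg (u ^ tot (Multiplicative.toAdd p).1) * sg (v ^ tot (Multiplicative.toAdd p).1)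
    rw [mul_uzpow, map_mul]

theorem cf_κB (u : ℤˣ) (p : GB) : Bichar.cf (κB u) p = sg (u ^ tot p.1) := rfl

/-- The action `α`. -/
noncomputable def actA : ℤˣ →* (σA.TG ≃⋆ₐ[ℂ] σA.TG) := σA.dual.comp κA

/-- The action `β`. -/
noncomputable def actB : ℤˣ →* (σB.TG ≃⋆ₐ[ℂ] σB.TG) := σB.dual.comp κB

/-- The product characters. -/
noncomputable def κD : ℤˣ × ℤˣ →* Bichar.Ch (GA × GB) where
  toFun p := Bichar.pc (κA p.1) (κB p.2)
  map_one' := by
    refine MonoidHom.ext fun p => ?_
    show Bichar.cf (κA 1) _ * Bichar.cf (κB 1) _ = 1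
    rw [map_one, map_one, Bichar.cf_one, Bichar.cf_one, one_mul]
  map_mul' p q := by
    refine MonoidHom.ext fun r => ?_
    show Bichar.cf (κA (p.1 * q.1)) _ * Bichar.cf (κB (p.2 * q.2)) _ =
      (Bichar.cf (κA p.1) _ * Bichar.cf (κB p.2) _) * (Bichar.cf (κA q.1) _ * Bichar.cf (κB q.2) _)
    rw [map_mul, map_mul, Bichar.cf_mul, Bichar.cf_mul, mul_mul_mul_comm]

/-- The product action `γ`. -/
noncomputable def actD : ℤˣ × ℤˣ →* ((σA.prod σB).TG ≃⋆ₐ[ℂ] (σA.prod σB).TG) :=
  (σA.prod σB).dual.comp κD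

theorem actD_apply (g h : ℤˣ) (a : σA.TG) (b : σB.TG) :
    actD (g, h) (σA.inl σB a * σA.inr σB b) = σA.inl σB (actA g a) * σA.inr σB (actB h b) :=
  σA.dual_inl_mul_inr σB (κA g) (κB h) a b

end Pool.Agent.Work.MP_7f0ddb_an
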