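import Mathlib
import Pool.Agent.Work.MP_7f0ddb_an.Groups

open scoped ENNReal InnerProductSpace ComplexConjugate

set_option linter.unusedSectionVars false

namespace Pool.Agent.Work.MP_7f0ddb_an

theorem Φ_apply_apply {Γ : Type} [AddCommGroup Γ] [DecidableEq Γ] (σ : Bichar Γ) (f : Γ →₀ ℂ)
    (ξ : L2 Γ) (q : Γ) :
    σ.Φ f ξ q = ∑ p ∈ f.support, f p * ((σ p (q - p) : Circle) : ℂ) * ξ (q - p) := by
  rw [Bichar.Φ, Finsupp.linearCombination_apply, Finsupp.sum, sum_apply,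
    lp.coeFn_sum, Finset.sum_apply]
  refine Finset.sum_congr rfl fun p _ => ?_
  rw [smulA, Bichar.U_apply, mul_assoc]

theorem Φ_δ {Γ : Type} [AddCommGroup Γ] [DecidableEq Γ] (σ : Bichar Γ) (f : Γ →₀ ℂ)
    (r q : Γ) : σ.Φ f (δ r) q = f (q - r) * ((σ (q - r) r : Circle) : ℂ) := by
  rw [Φ_apply_apply]
  by_cases h : q - r ∈ f.support
  · rw [Finset.sum_eq_single_of_mem (q - r) h]
    · rw [δ_apply, sub_sub_cancel, if_pos rfl, mul_one]
    · intro p _ hp
      rw [δ_apply, if_neg, mul_zero]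
      intro h'
      exact hp (by rw [← h', sub_sub_cancel])
  · rw [Finsupp.notMem_support_iff.1 h, zero_mul]
    refine Finset.sum_eq_zero fun p hp => ?_
    rw [δ_apply, if_neg, mul_zero]
    intro h'
    exact h (by rw [← h', sub_sub_cancel]; exact hp)

theorem zz_zpow_congr {N : ℕ} {ζ : RA} (h : zz ζ ^ N = 1) {x y : ℤ}
    (hxy : (x : ZMod N) = (y : ZMod N)) : zz ζ ^ x = zz ζ ^ y := by
  have h1 : ((x - y : ℤ) : ZMod N) = 0 := by push_cast; rw [hxy, sub_self]
  rw [ZMod.intCast_zmod_eq_zero_iff_dvd] at h1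
  obtain ⟨k, hk⟩ := h1
  have h2 : x = y + N * k := by rw [← hk]; ring
  rw [h2, zpow_add, zpow_mul, zpow_natCast, h, one_zpow, mul_one]

/-- The Floquet matrices. -/
noncomputable def Yf (f : GA →₀ ℂ) (N : ℕ) (θ : ℝ) : Matrix (ZMod N) (ZMod N) ℂ :=
  Matrix.of fun a b => ∑ p ∈ f.support, if a - b = (p.1 : ZMod N) then
    f p * (((Circle.exp θ) ^ (-p.1) : Circle) : ℂ) * ((zz p.2 ^ ((b.val : ℕ) : ℤ) : Circle) : ℂ)
    else 0

theorem Yf_apply (f : GA →₀ ℂ) (N : ℕ) (θ : ℝ) (a b : ZMod N) :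
    Yf f N θ a b = ∑ p ∈ f.support, if a - b = (p.1 : ZMod N) then
    f p * (((Circle.exp θ) ^ (-p.1) : Circle) : ℂ) * ((zz p.2 ^ ((b.val : ℕ) : ℤ) : Circle) : ℂ)
    else 0 := rfl

theorem continuous_Yf (f : GA →₀ ℂ) (N : ℕ) : Continuous (Yf f N) := by
  refine continuous_matrix fun a b => ?_
  simp only [Yf_apply]
  refine continuous_finsetSum _ fun p _ => ?_
  by_cases h : a - b = (p.1 : ZMod N)
  · simp only [h, if_true]
    refine Continuous.mul (Continuous.mul continuous_const ?_) continuous_const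
    exact continuous_subtype_val.comp (Circle.exp.continuous.zpow (-p.1))
  · simp only [h, if_false]
    exact continuous_const

theorem Yf_add_pi {f : GA →₀ ℂ} (hodd : ∀ p ∈ f.support, Odd p.1) (N : ℕ) (θ : ℝ) :
    Yf f N (θ + Real.pi) = -Yf f N θ := by
  ext a b
  rw [Matrix.neg_apply, Yf_apply, Yf_apply, ← Finset.sum_neg_distrib]
  refine Finset.sum_congr rfl fun p hp => ?_
  by_cases h : a - b = (p.1 : ZMod N)
  · rw [if_pos h, if_pos h]
    have h1 : (((Circle.exp (θ + Real.pi)) ^ (-p.1) : Circle) : ℂ)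
        = -(((Circle.exp θ) ^ (-p.1) : Circle) : ℂ) := by
      rw [Circle.exp_add, mul_zpow, Circle.coe_mul]
      have h2 : (((Circle.exp Real.pi) ^ (-p.1) : Circle) : ℂ) = -1 := by
        rw [Circle.coe_zpow, Circle.coe_exp, Complex.exp_pi_mul_I]
        exact Odd.neg_one_zpow (hodd p hp).neg
      rw [h2]
      ring
    rw [h1]
    ring
  · rw [if_neg h, if_neg h, neg_zero]

theorem conj_Yf {f : GA →₀ ℂ} {N : ℕ} [NeZero N]
    (hN : ∀ p ∈ f.support, zz p.2 ^ N = 1)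
    (hsa : ∀ q, f q = conj (f (-q)) * ((zz q.2 ^ q.1 : Circle) : ℂ)) (θ : ℝ) (a b : ZMod N) :
    conj (Yf f N θ b a) = Yf f N θ a b := by
  have hneg : ∀ q, q ∈ f.support → -q ∈ f.support := by
    intro q hq
    rw [Finsupp.mem_support_iff] at hq ⊢
    intro h0
    apply hq
    rw [hsa q, h0, map_zero, zero_mul]
  rw [Yf_apply, Yf_apply, map_sum]
  refine Finset.sum_bij' (fun p _ => -p) (fun p _ => -p) (fun p hp => hneg p hp)
    (fun p hp => hneg p hp) (fun p _ => neg_neg p) (fun p _ => neg_neg p) ?_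
  intro p hp
  by_cases h : b - a = (p.1 : ZMod N)
  · have h' : a - b = (((-p).1 : ℤ) : ZMod N) := by
      rw [Prod.fst_neg, Int.cast_neg, ← h, neg_sub]
    rw [if_pos h, if_pos h', map_mul, map_mul, ← Circle.coe_inv_eq_conj, ← Circle.coe_inv_eq_conj]
    have e1 : f (-p) = conj (f p) * ((zz p.2 ^ p.1 : Circle) : ℂ) := by
      have := hsa (-p)
      rw [neg_neg, Prod.snd_neg, Prod.fst_neg, zz_neg, inv_zpow', neg_neg] at this
      exact this
    rw [e1, Prod.snd_neg, Prod.fst_neg, neg_neg, ← zpow_neg, neg_neg, zz_neg]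
    have e2 : (zz p.2 ^ ((a.val : ℕ) : ℤ))⁻¹ = zz p.2 ^ p.1 * (zz p.2)⁻¹ ^ ((b.val : ℕ) : ℤ) := by
      rw [inv_zpow', ← zpow_add, ← zpow_neg]
      refine zz_zpow_congr (hN p hp) ?_
      push_cast
      rw [ZMod.natCast_zmod_val, ZMod.natCast_zmod_val, ← h]
      ring
    rw [e2, Circle.coe_mul]
    ring
  · have h' : ¬ (a - b = (((-p).1 : ℤ) : ZMod N)) := by
      intro h2
      apply h
      rw [Prod.fst_neg, Int.cast_neg] at h2
      rw [← neg_sub, h2, neg_neg]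
    rw [if_neg h, if_neg h', map_zero]

/-- A Floquet matrix of an odd self-adjoint element has a kernel. -/
theorem exists_ker {f : GA →₀ ℂ} {N : ℕ} [NeZero N] (hNodd : Odd N)
    (hN : ∀ p ∈ f.support, zz p.2 ^ N = 1) (hodd : ∀ p ∈ f.support, Odd p.1)
    (hsa : ∀ q, f q = conj (f (-q)) * ((zz q.2 ^ q.1 : Circle) : ℂ)) :
    ∃ (θ : ℝ) (g : ZMod N → ℂ), g ≠ 0 ∧ (Yf f N θ).mulVec g = 0 := by
  have hherm : ∀ θ, (Yf f N θ).conjTranspose = Yf f N θ := by
    intro θ
    ext a b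
    rw [Matrix.conjTranspose_apply]
    exact conj_Yf hN hsa θ a b
  have hreal : ∀ θ, conj (Yf f N θ).det = (Yf f N θ).det := by
    intro θ
    conv_rhs => rw [← hherm θ, Matrix.det_conjTranspose]
    rfl
  have hcont : Continuous fun θ => ((Yf f N θ).det).re :=
    Complex.continuous_re.comp (continuous_Yf f N).matrix_det
  have hpi : ((Yf f N (0 + Real.pi)).det).re = -((Yf f N 0).det).re := by
    rw [Yf_add_pi hodd, Matrix.det_neg, ZMod.card, hNodd.neg_one_pow, neg_one_mul, Complex.neg_re]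
  have hzero : (0 : ℝ) ∈ Set.range fun θ => ((Yf f N θ).det).re := by
    rcases le_total ((Yf f N 0).det).re 0 with h | h
    · exact mem_range_of_exists_le_of_exists_ge hcont ⟨0, h⟩ ⟨0 + Real.pi, by rw [hpi]; linarith⟩
    · exact mem_range_of_exists_le_of_exists_ge hcont ⟨0 + Real.pi, by rw [hpi]; linarith⟩ ⟨0, h⟩
  obtain ⟨θ, hθ⟩ := hzero
  have hdet : (Yf f N θ).det = 0 := by
    apply Complex.ext
    · exact hθ
    · have := congrArg Complex.im (hreal θ)
      rw [Complex.conj_im] at this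
      rw [Complex.zero_im]
      linarith
  obtain ⟨g, hg, hg'⟩ := Matrix.exists_mulVec_eq_zero_iff.2 hdet
  exact ⟨θ, g, hg, hg'⟩

/-- The quasi-periodic function associated with a vector. -/
noncomputable def GG {N : ℕ} (θ : ℝ) (g : ZMod N → ℂ) (k : ℤ) : ℂ :=
  (((Circle.exp θ) ^ k : Circle) : ℂ) * g (k : ZMod N)

theorem GG_sum {f : GA →₀ ℂ} {N : ℕ} [NeZero N] (hN : ∀ p ∈ f.support, zz p.2 ^ N = 1)
    {θ : ℝ} {g : ZMod N → ℂ} (hg : (Yf f N θ).mulVec g = 0) (i : ℤ) :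
    ∑ p ∈ f.support, f p * ((zz p.2 ^ (i - p.1) : Circle) : ℂ) * GG θ g (i - p.1) = 0 := by
  have h1 := congrFun hg (i : ZMod N)
  rw [Matrix.mulVec, dotProduct, Pi.zero_apply] at h1
  have h2 : (((Circle.exp θ) ^ i : Circle) : ℂ) *
      (∑ b : ZMod N, Yf f N θ (i : ZMod N) b * g b) = 0 := by
    rw [h1, mul_zero]
  rw [← h2]
  simp only [Yf_apply, Finset.sum_mul, Finset.mul_sum]
  rw [Finset.sum_comm]
  refine Finset.sum_congr rfl fun p hp => ?_
  rw [Finset.sum_eq_single (((i - p.1 : ℤ)) : ZMod N)]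
  · have h3 : (i : ZMod N) - ((i - p.1 : ℤ) : ZMod N) = (p.1 : ZMod N) := by push_cast; ring
    rw [if_pos h3, GG]
    have h4 : zz p.2 ^ (((((i - p.1 : ℤ)) : ZMod N).val : ℕ) : ℤ) = zz p.2 ^ (i - p.1) := by
      refine zz_zpow_congr (hN p hp) ?_
      rw [Int.cast_natCast, ZMod.natCast_zmod_val]
    rw [h4, sub_eq_add_neg i p.1, zpow_add (Circle.exp θ), Circle.coe_mul]
    ring
  · intro b _ hb
    rw [if_neg, zero_mul, mul_zero]
    intro h3
    apply hb
    push_cast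
    rw [← h3]
    ring
  · intro h
    exact absurd (Finset.mem_univ _) h

end Pool.Agent.Work.MP_7f0ddb_an
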