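import Mathlib
import Pool.Agent.Work.MP_7f0ddb_an.Defs

set_option linter.unusedSectionVars false

namespace Pool.Agent.Work.MP_7f0ddb_an

section Alg

variable {D : Type} [CStarAlgebra D]

/-- The spectral projections of a self-adjoint unitary. -/
noncomputable def sp (u : ℤˣ) (s : D) : D := (2 : ℂ)⁻¹ • (1 + ((u : ℤ) : ℂ) • s)

theorem sp_one (s : D) : sp 1 s = (2 : ℂ)⁻¹ • (1 + s) := by simp [sp]

theorem sp_neg (s : D) : sp (-1) s = (2 : ℂ)⁻¹ • (1 - s) := by simp [sp, sub_eq_add_neg]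

theorem cast_sq (u : ℤˣ) : ((u : ℤ) : ℂ) * ((u : ℤ) : ℂ) = 1 := by
  rcases Int.units_eq_one_or u with h | h <;> simp [h]

theorem star_sp {s : D} (hs : star s = s) (u : ℤˣ) : star (sp u s) = sp u s := by
  rw [sp, star_smul, star_add, star_one, star_smul, hs]
  simp

theorem sp_mul_self {s : D} (hs : s * s = 1) (u : ℤˣ) : sp u s * sp u s = sp u s := by
  rw [sp, smul_mul_assoc, mul_smul_comm, smul_smul, mul_add, mul_one, add_mul, one_mul,
    smul_mul_assoc, mul_smul_comm, smul_smul, cast_sq, one_smul, hs]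
  have : (1 : D) + ((u : ℤ) : ℂ) • s + (((u : ℤ) : ℂ) • s + 1) = (2 : ℂ) • (1 + ((u : ℤ) : ℂ) • s) := by
    rw [two_smul]
    abel
  rw [this, smul_smul]
  norm_num

theorem sp_mul_ne {s : D} (hs : s * s = 1) {u v : ℤˣ} (h : u ≠ v) : sp u s * sp v s = 0 := by
  have hv : v = -u := by
    rcases Int.units_eq_one_or u with h1 | h1 <;> rcases Int.units_eq_one_or v with h2 | h2 <;>
      simp_all
  subst hv
  rw [sp, sp, smul_mul_assoc, mul_smul_comm, smul_smul, mul_add, mul_one, add_mul, one_mul,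
    smul_mul_assoc, mul_smul_comm, smul_smul, hs]
  have h1 : ((u : ℤ) : ℂ) * (((-u : ℤˣ) : ℤ) : ℂ) = -1 := by
    push_cast
    rw [mul_neg, cast_sq]
  have h2 : (((-u : ℤˣ) : ℤ) : ℂ) = -((u : ℤ) : ℂ) := by push_cast; rfl
  rw [h1, h2, neg_smul, neg_smul, one_smul]
  have : (1 : D) + ((u : ℤ) : ℂ) • s + (-(((u : ℤ) : ℂ) • s) + -1) = 0 := by abel
  rw [this, smul_zero]

theorem isStarProjection_sp {s : D} (hs : star s = s) (hs2 : s * s = 1) (u : ℤˣ) :
    IsStarProjection (sp u s) where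
  isIdempotentElem := sp_mul_self hs2 u
  isSelfAdjoint := star_sp hs u

theorem sum_sp (s : D) : ∑ u : ℤˣ, sp u s = 1 := by
  have h : (Finset.univ : Finset ℤˣ) = {1, -1} := rfl
  rw [h, Finset.sum_pair (by decide), sp_one, sp_neg, ← smul_add]
  have : (1 : D) + s + (1 - s) = (2 : ℂ) • (1 : D) := by
    rw [two_smul]; abel
  rw [this, smul_smul]
  norm_num

theorem map_sp (φ : D ≃⋆ₐ[ℂ] D) {s : D} {v : ℤˣ} (h : φ s = ((v : ℤ) : ℂ) • s) (u : ℤˣ) :
    φ (sp u s) = sp (v * u) s := by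
  rw [sp, sp, map_smul, map_add, map_one, map_smul, h, smul_smul]
  congr 3
  push_cast
  ring

theorem sp_comm {s q : D} (h : s * q = q * s) (u v : ℤˣ) : sp u s * sp v q = sp v q * sp u s := by
  rw [sp, sp]
  simp only [smul_mul_assoc, mul_smul_comm, mul_add, add_mul, mul_one, one_mul, smul_add, h]
  module

theorem norm_le_one_of_unitary {s : D} (hs : star s * s = 1) : ‖s‖ ≤ 1 := by
  have h1 : ‖s‖ * ‖s‖ = ‖(1 : D)‖ := by rw [← CStarRing.norm_star_mul_self, hs]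
  have h2 : ‖(1 : D)‖ ≤ 1 := by
    rcases subsingleton_or_nontrivial D with h | h
    · rw [Subsingleton.elim (1 : D) 0, norm_zero]
      exact zero_le_one
    · exact le_of_eq CStarRing.norm_one
  by_contra h
  push Not at h
  nlinarith

theorem norm_sp_comm_le {s : D} (a : D) (u : ℤˣ) :
    ‖sp u s * a - a * sp u s‖ ≤ 1 / 2 * ‖s * a - a * s‖ := by
  have h1 : sp u s * a - a * sp u s = ((2 : ℂ)⁻¹ * ((u : ℤ) : ℂ)) • (s * a - a * s) := by
    rw [sp]
    simp only [smul_mul_assoc, mul_smul_comm, mul_add, add_mul, mul_one, one_mul, smul_add,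
      smul_sub]
    module
  rw [h1, norm_smul, norm_mul]
  have h2 : ‖((u : ℤ) : ℂ)‖ = 1 := by
    rcases Int.units_eq_one_or u with h | h <;> simp [h]
  rw [h2]
  norm_num

theorem norm_sp_le {s : D} (hs : star s = s) (hs2 : s * s = 1) (u : ℤˣ) : ‖sp u s‖ ≤ 1 := by
  have h1 : ‖sp u s‖ * ‖sp u s‖ = ‖sp u s‖ := by
    rw [← CStarRing.norm_star_mul_self, star_sp hs, sp_mul_self hs2]
  by_contra h
  push Not at h
  nlinarith

/-- A criterion for the Rokhlin property of an action of `ℤˣ × ℤˣ`. -/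
theorem rokhlin_of_exists (γ : ℤˣ × ℤˣ →* (D ≃⋆ₐ[ℂ] D))
    (h : ∀ (F : Finset D) (ε : ℝ), 0 < ε → ∃ s q : D, star s = s ∧ s * s = 1 ∧ star q = q ∧
      q * q = 1 ∧ s * q = q * s ∧
      (∀ g h : ℤˣ, γ (g, h) s = (((g * h : ℤˣ) : ℤ) : ℂ) • s) ∧
      (∀ g h : ℤˣ, γ (g, h) q = ((h : ℤ) : ℂ) • q) ∧
      (∀ a ∈ F, ‖s * a - a * s‖ < ε) ∧ (∀ a ∈ F, ‖q * a - a * q‖ < ε)) :
    RokhlinProperty γ := by
  intro F ε hε
  obtain ⟨s, q, hs, hs2, hq, hq2, hsq, hγs, hγq, hsF, hqF⟩ := h F ε hε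
  refine ⟨fun k => sp (k.1 * k.2) s * sp k.2 q, ?_, ?_, ?_, ?_, ?_⟩
  · intro k
    refine ⟨?_, ?_⟩
    · show sp (k.1 * k.2) s * sp k.2 q * (sp (k.1 * k.2) s * sp k.2 q) = _
      rw [mul_assoc, ← mul_assoc (sp k.2 q), ← sp_comm hsq, mul_assoc (sp (k.1 * k.2) s) (sp k.2 q),
        sp_mul_self hq2, ← mul_assoc, sp_mul_self hs2]
    · show star (sp (k.1 * k.2) s * sp k.2 q) = sp (k.1 * k.2) s * sp k.2 q
      rw [star_mul, star_sp hs, star_sp hq, sp_comm hsq]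
  · intro k l hkl
    have e1 : sp (k.1 * k.2) s * sp k.2 q * (sp (l.1 * l.2) s * sp l.2 q)
        = (sp (k.1 * k.2) s * sp (l.1 * l.2) s) * (sp k.2 q * sp l.2 q) := by
      rw [mul_assoc, ← mul_assoc (sp k.2 q), ← sp_comm hsq]
      simp only [mul_assoc]
    show sp (k.1 * k.2) s * sp k.2 q * (sp (l.1 * l.2) s * sp l.2 q) = 0
    rw [e1]
    by_cases h2 : k.2 = l.2
    · have h1 : k.1 * k.2 ≠ l.1 * l.2 := by
        intro h3
        rw [h2] at h3
        exact hkl (Prod.ext (mul_right_cancel h3) h2)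
      rw [sp_mul_ne hs2 h1, zero_mul]
    · rw [sp_mul_ne hq2 h2, mul_zero]
  · rintro ⟨g, h⟩ ⟨g', h'⟩
    have e1 : γ (g, h) (sp (g' * h') s * sp h' q) = sp (g * g' * (h * h')) s * sp (h * h') q := by
      rw [map_mul, map_sp _ (hγs g h), map_sp _ (hγq g h)]
      congr 2
      exact mul_mul_mul_comm _ _ _ _
    show ‖γ (g, h) (sp (g' * h') s * sp h' q) - sp (g * g' * (h * h')) s * sp (h * h') q‖ < ε
    rw [e1, sub_self, norm_zero]
    exact hε
  · intro k a ha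
    have e1 : sp (k.1 * k.2) s * sp k.2 q * a - a * (sp (k.1 * k.2) s * sp k.2 q)
        = sp (k.1 * k.2) s * (sp k.2 q * a - a * sp k.2 q) +
          (sp (k.1 * k.2) s * a - a * sp (k.1 * k.2) s) * sp k.2 q := by
      noncomm_ring
    show ‖sp (k.1 * k.2) s * sp k.2 q * a - a * (sp (k.1 * k.2) s * sp k.2 q)‖ < ε
    rw [e1]
    calc ‖sp (k.1 * k.2) s * (sp k.2 q * a - a * sp k.2 q) +
          (sp (k.1 * k.2) s * a - a * sp (k.1 * k.2) s) * sp k.2 q‖
        ≤ ‖sp (k.1 * k.2) s * (sp k.2 q * a - a * sp k.2 q)‖ +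
          ‖(sp (k.1 * k.2) s * a - a * sp (k.1 * k.2) s) * sp k.2 q‖ := norm_add_le _ _
      _ ≤ ‖sp (k.1 * k.2) s‖ * ‖sp k.2 q * a - a * sp k.2 q‖ +
          ‖sp (k.1 * k.2) s * a - a * sp (k.1 * k.2) s‖ * ‖sp k.2 q‖ :=
        add_le_add (norm_mul_le _ _) (norm_mul_le _ _)
      _ ≤ 1 * (1 / 2 * ‖q * a - a * q‖) + (1 / 2 * ‖s * a - a * s‖) * 1 := by
        gcongr
        · exact norm_sp_le hs hs2 _
        · exact norm_sp_comm_le _ _
        · exact norm_sp_comm_le _ _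
        · exact norm_sp_le hq hq2 _
      _ < ε := by
        have h1 := hsF a ha
        have h2 := hqF a ha
        linarith
  · show ∑ k : ℤˣ × ℤˣ, sp (k.1 * k.2) s * sp k.2 q = 1
    rw [Fintype.sum_prod_type_right]
    have h1 : ∀ y : ℤˣ, ∑ x : ℤˣ, sp (x * y) s * sp y q = sp y q := by
      intro y
      rw [← Finset.sum_mul]
      have h2 : ∑ x : ℤˣ, sp (x * y) s = ∑ x : ℤˣ, sp x s :=
        Equiv.sum_comp (Equiv.mulRight y) (fun x => sp x s)
      rw [h2, sum_sp, one_mul]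
    simp only [h1]
    exact sum_sp q

end Alg

end Pool.Agent.Work.MP_7f0ddb_an
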