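import Mathlib
import Pool.Agent.Work.MP_7f0ddb_an.Floquet

open scoped ENNReal InnerProductSpace ComplexConjugate

set_option linter.unusedSectionVars false

namespace Pool.Agent.Work.MP_7f0ddb_an

theorem L2.norm_sq_le {I : Type} (ξ : L2 I) (E : Finset I) (C : ℝ)
    (h1 : ∀ i ∉ E, ξ i = 0) (h2 : ∀ i, ‖ξ i‖ ≤ C) : ‖ξ‖ ^ 2 ≤ E.card * C ^ 2 := by
  rw [L2.norm_sq, tsum_eq_sum (s := E) (fun i hi => by rw [h1 i hi]; simp)]
  calc ∑ i ∈ E, ‖ξ i‖ ^ 2 ≤ ∑ _i ∈ E, C ^ 2 :=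
        Finset.sum_le_sum fun i _ => pow_le_pow_left₀ (norm_nonneg _) (h2 i) 2
    _ = _ := by rw [Finset.sum_const, nsmul_eq_mul]

theorem L2.le_norm_sq {I : Type} (ξ : L2 I) (E : Finset I) (c : ℝ)
    (h2 : ∀ i ∈ E, c ≤ ‖ξ i‖ ^ 2) : E.card * c ≤ ‖ξ‖ ^ 2 := by
  rw [L2.norm_sq]
  calc (E.card : ℝ) * c = ∑ _i ∈ E, c := by rw [Finset.sum_const, nsmul_eq_mul]
    _ ≤ ∑ i ∈ E, ‖ξ i‖ ^ 2 := Finset.sum_le_sum h2
    _ ≤ _ := ξ.summable.sum_le_tsum _ (fun _ _ => sq_nonneg _)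

theorem finite_roots (N : ℕ) (hN : 0 < N) : {ω : RA | zz ω ^ N = 1}.Finite := by
  have h1 : Function.Injective fun ω : RA => ((zz ω : Circle) : ℂ) := fun a b h =>
    zz_inj (Circle.ext h)
  refine Set.Finite.subset (Set.Finite.preimage h1.injOn
    (Polynomial.nthRootsFinset N (1 : ℂ)).finite_toSet) ?_
  intro ω hω
  show ((zz ω : Circle) : ℂ) ∈ Polynomial.nthRootsFinset N (1 : ℂ)
  rw [Polynomial.mem_nthRootsFinset hN, ← Circle.coe_pow]
  rw [Set.mem_ofPred_eq] at hω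
  rw [hω, Circle.coe_one]

/-- The finite group of `N`-th roots of unity in `RA`. -/
noncomputable def KN (N : ℕ) (hN : 0 < N) : Finset RA := (finite_roots N hN).toFinset

theorem mem_KN {N : ℕ} {hN : 0 < N} {ω : RA} : ω ∈ KN N hN ↔ zz ω ^ N = 1 := by
  rw [KN, Set.Finite.mem_toFinset]
  rfl

theorem KN_sub {N : ℕ} {hN : 0 < N} {ω ζ : RA} (hζ : zz ζ ^ N = 1) :
    ω - ζ ∈ KN N hN ↔ ω ∈ KN N hN := by
  rw [mem_KN, mem_KN, zz_sub, div_pow, hζ, div_one]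

/-- The truncated function. -/
noncomputable def tf (G : ℤ → ℂ) (K : Finset RA) (L : ℕ) (q : GA) : ℂ :=
  if 0 ≤ q.1 ∧ q.1 < L ∧ q.2 ∈ K then G q.1 else 0

theorem tf_support (G : ℤ → ℂ) (K : Finset RA) (L : ℕ) (q : GA)
    (hq : q ∉ Finset.Ico (0 : ℤ) L ×ˢ K) : tf G K L q = 0 := by
  rw [tf, if_neg]
  rintro ⟨h1, h2, h3⟩
  exact hq (Finset.mem_product.2 ⟨Finset.mem_Ico.2 ⟨h1, h2⟩, h3⟩)

theorem memℓp_tf (G : ℤ → ℂ) (K : Finset RA) (L : ℕ) : Memℓp (tf G K L) 2 := by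
  rw [L2.memℓp_iff]
  refine summable_of_ne_finset_zero (s := Finset.Ico (0 : ℤ) L ×ˢ K) fun q hq => ?_
  rw [tf_support G K L q hq]
  simp

/-- The truncated vector. -/
noncomputable def tv (G : ℤ → ℂ) (K : Finset RA) (L : ℕ) : L2 GA := ⟨tf G K L, memℓp_tf G K L⟩

theorem tv_apply (G : ℤ → ℂ) (K : Finset RA) (L : ℕ) (q : GA) : tv G K L q = tf G K L q := rfl

/-- There are vectors almost annihilated by an odd self-adjoint element of the group algebra. -/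
theorem exists_bad {f : GA →₀ ℂ} {N : ℕ} [NeZero N] (hNodd : Odd N)
    (hN : ∀ p ∈ f.support, zz p.2 ^ N = 1) (hodd : ∀ p ∈ f.support, Odd p.1)
    (hsa : ∀ q, f q = conj (f (-q)) * ((zz q.2 ^ q.1 : Circle) : ℂ)) {c : ℝ} (hc : 0 < c)
    (hlow : ∀ ξ : L2 GA, c * ‖ξ‖ ≤ ‖σA.Φ f ξ‖) : False := by
  obtain ⟨θ, g, hg0, hg⟩ := exists_ker hNodd hN hodd hsa
  have hNpos : 0 < N := Nat.pos_of_ne_zero (NeZero.ne N)
  set K := KN N hNpos with hK
  set G : ℤ → ℂ := GG θ g with hG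
  -- bounds
  obtain ⟨w, hw⟩ : ∃ w : ℕ, ∀ p ∈ f.support, p.1.natAbs ≤ w :=
    ⟨∑ p ∈ f.support, p.1.natAbs, fun p hp =>
      Finset.single_le_sum (f := fun p : GA => p.1.natAbs) (fun _ _ => Nat.zero_le _) hp⟩
  obtain ⟨Cg, hCg⟩ : ∃ Cg : ℝ, ∀ k, ‖G k‖ ≤ Cg := by
    refine ⟨∑ b, ‖g b‖, fun k => ?_⟩
    rw [hG, GG, norm_mul, Circle.norm_coe, one_mul]
    exact Finset.single_le_sum (f := fun b => ‖g b‖) (fun _ _ => norm_nonneg _)
      (Finset.mem_univ _)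
  have hCg0 : 0 ≤ Cg := (norm_nonneg _).trans (hCg 0)
  obtain ⟨b0, hb0⟩ := Function.ne_iff.1 hg0
  rw [Pi.zero_apply] at hb0
  set C : ℝ := (∑ p ∈ f.support, ‖f p‖) * Cg with hC
  -- formula for the image
  have himg : ∀ (L : ℕ) (q : GA), σA.Φ f (tv G K L) q =
      ∑ p ∈ f.support, f p * ((zz p.2 ^ (q.1 - p.1) : Circle) : ℂ) *
        (if 0 ≤ q.1 - p.1 ∧ q.1 - p.1 < L ∧ q.2 ∈ K then G (q.1 - p.1) else 0) := by
    intro L q
    rw [Φ_apply_apply]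
    refine Finset.sum_congr rfl fun p hp => ?_
    rw [tv_apply, tf, σA_apply, Prod.fst_sub, Prod.snd_sub]
    simp only [hK, KN_sub (hN p hp)]
  have hbd : ∀ (L : ℕ) (q : GA), ‖σA.Φ f (tv G K L) q‖ ≤ C := by
    intro L q
    rw [himg, hC, Finset.sum_mul]
    refine (norm_sum_le _ _).trans (Finset.sum_le_sum fun p _ => ?_)
    rw [norm_mul, norm_mul, Circle.norm_coe, mul_one]
    gcongr
    split_ifs
    · exact hCg _
    · rw [norm_zero]; exact hCg0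
  have hsupp : ∀ (L : ℕ) (q : GA), q ∉ (Finset.Ico (-(w : ℤ)) w ∪
      Finset.Ico ((L : ℤ) - w) (L + w)) ×ˢ K → σA.Φ f (tv G K L) q = 0 := by
    intro L q hq
    rw [himg]
    by_cases hqK : q.2 ∈ K
    · have hq1 : ¬ (-(w : ℤ) ≤ q.1 ∧ q.1 < w) := fun h =>
        hq (Finset.mem_product.2 ⟨Finset.mem_union_left _ (Finset.mem_Ico.2 h), hqK⟩)
      have hq2 : ¬ ((L : ℤ) - w ≤ q.1 ∧ q.1 < L + w) := fun h =>
        hq (Finset.mem_product.2 ⟨Finset.mem_union_right _ (Finset.mem_Ico.2 h), hqK⟩)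
      have hcases : (q.1 < -(w : ℤ)) ∨ ((w : ℤ) ≤ q.1 ∧ q.1 < (L : ℤ) - w) ∨
          ((L : ℤ) + w ≤ q.1 ∧ (w : ℤ) ≤ q.1) := by omega
      by_cases hmid : (w : ℤ) ≤ q.1 ∧ q.1 < (L : ℤ) - w
      · rw [← GG_sum hN hg q.1]
        refine Finset.sum_congr rfl fun p hp => ?_
        have := hw p hp
        rw [if_pos ⟨by omega, by omega, hqK⟩]
      · refine Finset.sum_eq_zero fun p hp => ?_
        have := hw p hp
        rw [if_neg, mul_zero]
        rintro ⟨h1, h2, -⟩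
        omega
    · refine Finset.sum_eq_zero fun p _ => ?_
      rw [if_neg (fun h => hqK h.2.2), mul_zero]
  have hup : ∀ L : ℕ, ‖σA.Φ f (tv G K L)‖ ^ 2 ≤ (4 * w * K.card : ℝ) * C ^ 2 := by
    intro L
    refine (L2.norm_sq_le _ _ C (hsupp L) (hbd L)).trans ?_
    refine mul_le_mul_of_nonneg_right ?_ (sq_nonneg _)
    rw [Finset.card_product]
    have h1 : (Finset.Ico (-(w : ℤ)) w ∪ Finset.Ico ((L : ℤ) - w) (L + w)).card ≤ 4 * w := by
      refine (Finset.card_union_le _ _).trans ?_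
      rw [Int.card_Ico, Int.card_Ico]
      omega
    calc (((Finset.Ico (-(w : ℤ)) w ∪ Finset.Ico ((L : ℤ) - w) (L + w)).card * K.card : ℕ) : ℝ)
        ≤ ((4 * w * K.card : ℕ) : ℝ) := by exact_mod_cast Nat.mul_le_mul_right _ h1
      _ = _ := by push_cast; ring
  -- lower bound
  have hlo : ∀ M : ℕ, (M : ℝ) * ‖g b0‖ ^ 2 ≤ ‖tv G K (N * M)‖ ^ 2 := by
    intro M
    have hinj : Function.Injective fun j : ℕ => (((b0.val + N * j : ℕ) : ℤ), (0 : RA)) := by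
      intro j j' h
      have h1 := congrArg Prod.fst h
      simp only [Nat.cast_inj, Nat.add_left_cancel_iff] at h1
      exact Nat.eq_of_mul_eq_mul_left hNpos h1
    have h1 := L2.le_norm_sq (tv G K (N * M)) ((Finset.range M).image
      fun j : ℕ => (((b0.val + N * j : ℕ) : ℤ), (0 : RA))) (‖g b0‖ ^ 2) (by
        intro q hq
        obtain ⟨j, hj, rfl⟩ := Finset.mem_image.1 hq
        rw [Finset.mem_range] at hj
        have hval := ZMod.val_lt b0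
        have hle : b0.val + N * j < N * M := by
          calc b0.val + N * j < N + N * j := by omega
            _ = N * (j + 1) := by ring
            _ ≤ N * M := Nat.mul_le_mul_left _ hj
        rw [tv_apply, tf, if_pos]
        · rw [hG, GG, norm_mul, Circle.norm_coe, one_mul]
          have : ((((b0.val + N * j : ℕ) : ℤ)) : ZMod N) = b0 := by
            push_cast
            rw [ZMod.natCast_zmod_val, ZMod.natCast_self, zero_mul, add_zero]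
          rw [this]
        · refine ⟨?_, ?_, ?_⟩
          · show (0 : ℤ) ≤ ((b0.val + N * j : ℕ) : ℤ)
            positivity
          · show ((b0.val + N * j : ℕ) : ℤ) < ((N * M : ℕ) : ℤ)
            exact_mod_cast hle
          · rw [hK, mem_KN, zz_zero, one_pow])
    rwa [Finset.card_image_of_injective _ hinj, Finset.card_range] at h1
  -- conclusion
  have hpos : 0 < c ^ 2 * ‖g b0‖ ^ 2 := by
    have := norm_pos_iff.2 hb0
    positivity
  obtain ⟨M, hM⟩ := exists_nat_gt ((4 * w * K.card : ℝ) * C ^ 2 / (c ^ 2 * ‖g b0‖ ^ 2))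
  rw [div_lt_iff₀ hpos] at hM
  have h1 := hlow (tv G K (N * M))
  have h2 : c ^ 2 * ‖tv G K (N * M)‖ ^ 2 ≤ ‖σA.Φ f (tv G K (N * M))‖ ^ 2 := by
    rw [← mul_pow]
    exact pow_le_pow_left₀ (by positivity) h1 2
  have h3 := hup (N * M)
  have h4 := hlo M
  have h5 : c ^ 2 * ((M : ℝ) * ‖g b0‖ ^ 2) ≤ c ^ 2 * ‖tv G K (N * M)‖ ^ 2 :=
    mul_le_mul_of_nonneg_left h4 (sq_nonneg _)
  nlinarith

end Pool.Agent.Work.MP_7f0ddb_an
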