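import Mathlib
import Pool.Agent.Work.MP_7f0ddb_an.Trunc
import Pool.Agent.Work.MP_7f0ddb_an.RokhlinGen

open scoped ENNReal InnerProductSpace ComplexConjugate

set_option linter.unusedSectionVars false

namespace Pool.Agent.Work.MP_7f0ddb_an

theorem alg_dual {Γ : Type} [AddCommGroup Γ] [DecidableEq Γ] (σ : Bichar Γ)
    (κ : Bichar.Ch Γ) {x : L2 Γ →L[ℂ] L2 Γ} (hx : x ∈ σ.alg) :
    Bichar.Mo (Bichar.cf κ) * x * star (Bichar.Mo (Bichar.cf κ)) ∈ σ.alg := by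
  have h : x ∈ Submodule.span ℂ (Set.range σ.U) := hx
  induction h using Submodule.span_induction with
  | mem y hy =>
    obtain ⟨g, rfl⟩ := hy
    rw [Bichar.Mo_U]
    exact σ.alg.smul_mem (Submodule.subset_span ⟨g, rfl⟩) _
  | zero => rw [mul_zero, zero_mul]; exact zero_mem _
  | add y z hy hz ihy ihz =>
    rw [mul_add, add_mul]
    exact add_mem (ihy hy) (ihz hz)
  | smul c y hy ih =>
    rw [mul_smul_comm, smul_mul_assoc]
    exact σ.alg.smul_mem (ih hy) _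

/-- Coefficients of self-adjoint elements. -/
theorem coef_selfAdjoint {f : GA →₀ ℂ} (h : star (σA.Φ f) = σA.Φ f) (q : GA) :
    f q = conj (f (-q)) * ((zz q.2 ^ q.1 : Circle) : ℂ) := by
  have h1 : σA.Φ f (δ 0) q = f q := by
    rw [Φ_δ, sub_zero, Bichar.zero_right, Circle.coe_one, mul_one]
  have h2 : (star (σA.Φ f)) (δ 0) q = conj (σA.Φ f (δ q) 0) := by
    rw [← inner_δ, ContinuousLinearMap.star_eq_adjoint, ContinuousLinearMap.adjoint_inner_right,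
      ← inner_conj_symm, inner_δ]
  rw [h, h1, Φ_δ, zero_sub] at h2
  rw [h2, map_mul, σA_apply, ← Circle.coe_inv_eq_conj, Prod.snd_neg, zz_neg, inv_zpow',
    ← zpow_neg, neg_neg]

/-- Coefficients of odd elements. -/
theorem coef_odd {f : GA →₀ ℂ}
    (h : Bichar.Mo (Bichar.cf (κA (-1))) * σA.Φ f * star (Bichar.Mo (Bichar.cf (κA (-1))))
      = -σA.Φ f) {p : GA} (hp : p ∈ f.support) : Odd p.1 := by
  by_contra hodd
  rw [Int.not_odd_iff_even] at hodd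
  rw [Finsupp.mem_support_iff] at hp
  apply hp
  have h1 : σA.Φ f (δ 0) p = f p := by
    rw [Φ_δ, sub_zero, Bichar.zero_right, Circle.coe_one, mul_one]
  have h2 : (star (Bichar.Mo (Bichar.cf (κA (-1)))) : L2 GA →L[ℂ] L2 GA) (δ 0) = δ 0 := by
    ext q
    rw [Bichar.star_Mo, Bichar.Mo_apply, δ_apply]
    by_cases hq : q = 0
    · subst hq
      rw [cf_κA]
      simp
    · simp [hq]
  have h3 := congrArg (fun T : L2 GA →L[ℂ] L2 GA => T (δ 0) p) h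
  have h4 : (Bichar.Mo (Bichar.cf (κA (-1))) * σA.Φ f *
      star (Bichar.Mo (Bichar.cf (κA (-1)))) : L2 GA →L[ℂ] L2 GA) (δ 0) p
      = ((Bichar.cf (κA (-1)) p : Circle) : ℂ) * σA.Φ f (δ 0) p := by
    rw [mulA, mulA, h2, Bichar.Mo_apply]
  have h5 : (-σA.Φ f : L2 GA →L[ℂ] L2 GA) (δ 0) p = -(σA.Φ f (δ 0) p) := rfl
  simp only at h3
  rw [h4, h5, h1, cf_κA, ← map_zpow, hodd.neg_one_zpow, map_one, Circle.coe_one, one_mul] at h3
  have h6 : (2 : ℂ) * f p = 0 := by linear_combination h3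
  simpa using h6

section Gen

variable {D : Type} [CStarAlgebra D] (a : D ≃⋆ₐ[ℂ] D)

theorem sym_props {e₁ e₂ : D} (h1 : IsStarProjection e₁) (h2 : IsStarProjection e₂)
    (h12 : e₁ * e₂ = 0) (h21 : e₂ * e₁ = 0) (hsum : e₁ + e₂ = 1)
    (ha1 : ‖a e₁ - e₂‖ < 1 / 16) (ha2 : ‖a e₂ - e₁‖ < 1 / 16) :
    star (e₁ - e₂) = e₁ - e₂ ∧ (e₁ - e₂) * (e₁ - e₂) = 1 ∧
      ‖a (e₁ - e₂) + (e₁ - e₂)‖ ≤ 1 / 8 := by
  refine ⟨?_, ?_, ?_⟩
  · rw [star_sub, h1.isSelfAdjoint.star_eq, h2.isSelfAdjoint.star_eq]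
  · have e1 : e₁ * e₁ = e₁ := h1.isIdempotentElem
    have e2 : e₂ * e₂ = e₂ := h2.isIdempotentElem
    rw [mul_sub, sub_mul, sub_mul, e1, e2, h12, h21, ← hsum]
    abel
  · have h4 : a (e₁ - e₂) + (e₁ - e₂) = (a e₁ - e₂) - (a e₂ - e₁) := by
      rw [map_sub]
      abel
    rw [h4]
    refine (norm_sub_le _ _).trans ?_
    linarith

theorem odd_props (haa : ∀ x, a (a x) = x) (hna : ∀ x, ‖a x‖ ≤ ‖x‖) {s y0 y1 : D}
    (hs1 : star s = s) (has : ‖a s + s‖ ≤ 1 / 8) (hsy0 : ‖s - y0‖ ≤ 1 / 16)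
    (hy1 : y1 = (2 : ℂ)⁻¹ • (y0 + star y0)) :
    ‖s - (2 : ℂ)⁻¹ • (y1 - a y1)‖ ≤ 1 / 8 ∧
      star ((2 : ℂ)⁻¹ • (y1 - a y1)) = (2 : ℂ)⁻¹ • (y1 - a y1) ∧
      a ((2 : ℂ)⁻¹ • (y1 - a y1)) = -((2 : ℂ)⁻¹ • (y1 - a y1)) := by
  have hhalf : ‖(2 : ℂ)⁻¹‖ = 1 / 2 := by norm_num
  have hsy1 : ‖s - y1‖ ≤ 1 / 16 := by
    have h1 : s - y1 = (2 : ℂ)⁻¹ • ((s - y0) + star (s - y0)) := by
      rw [hy1, star_sub, hs1]
      module
    rw [h1, norm_smul, hhalf]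
    have h2 : ‖(s - y0) + star (s - y0)‖ ≤ 1 / 16 + 1 / 16 :=
      (norm_add_le _ _).trans (add_le_add hsy0 (by rw [norm_star]; exact hsy0))
    linarith
  have hy1s : star y1 = y1 := by
    rw [hy1, star_smul, star_add, star_star, add_comm]
    simp
  refine ⟨?_, ?_, ?_⟩
  · have h1 : s - (2 : ℂ)⁻¹ • (y1 - a y1)
        = (2 : ℂ)⁻¹ • ((s - y1) + ((a s + s) - a (s - y1))) := by
      rw [map_sub]
      module
    rw [h1, norm_smul, hhalf]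
    have h2 : ‖(s - y1) + ((a s + s) - a (s - y1))‖ ≤ 1 / 16 + (1 / 8 + 1 / 16) :=
      (norm_add_le _ _).trans (add_le_add hsy1 ((norm_sub_le _ _).trans
        (add_le_add has ((hna _).trans hsy1))))
    linarith
  · rw [star_smul, star_sub, ← map_star, hy1s]
    simp
  · rw [map_smul, map_sub, haa, ← smul_neg, neg_sub]

end Gen

theorem norm_apply_of_unitary {Γ : Type} {s : L2 Γ →L[ℂ] L2 Γ} (h2 : star s * s = 1)
    (ξ : L2 Γ) : ‖s ξ‖ = ‖ξ‖ := by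
  have h3 : ⟪s ξ, s ξ⟫_ℂ = ⟪ξ, ξ⟫_ℂ := by
    rw [← ContinuousLinearMap.adjoint_inner_right, ← ContinuousLinearMap.star_eq_adjoint,
      ← mulA, h2]
    rfl
  rw [inner_self_eq_norm_sq_to_K, inner_self_eq_norm_sq_to_K] at h3
  have h4 : ‖s ξ‖ ^ 2 = ‖ξ‖ ^ 2 := by exact_mod_cast h3
  exact (sq_eq_sq₀ (norm_nonneg _) (norm_nonneg _)).1 h4

/-- There is no symmetry which is nearly odd. -/
theorem no_symmetry (s : σA.TG) (hs1 : star s = s) (hs2 : s * s = 1)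
    (has : ‖actA (-1) s + s‖ ≤ 1 / 8) : False := by
  have haa : ∀ x, actA (-1) (actA (-1) x) = x := by
    intro x
    have h1 : (actA (-1) * actA (-1)) x = x := by
      rw [← map_mul]
      have : (-1 : ℤˣ) * -1 = 1 := by decide
      rw [this, map_one]
      rfl
    exact h1
  have hna : ∀ x, ‖actA (-1) x‖ ≤ ‖x‖ := fun x => σA.norm_dual_le (κA (-1)) x
  obtain ⟨f0, hf0⟩ := σA.exists_approx s.2 (ε := 1 / 16) (by norm_num)
  obtain ⟨y0, hy0⟩ : ∃ y0 : σA.TG, (y0 : L2 GA →L[ℂ] L2 GA) = σA.Φ f0 :=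
    ⟨⟨σA.Φ f0, σA.Φ_mem f0⟩, rfl⟩
  have hsy0 : ‖s - y0‖ ≤ 1 / 16 := by
    show ‖(s : L2 GA →L[ℂ] L2 GA) - (y0 : L2 GA →L[ℂ] L2 GA)‖ ≤ 1 / 16
    rw [hy0]
    exact hf0.le
  obtain ⟨y1, hy1⟩ : ∃ y1 : σA.TG, y1 = (2 : ℂ)⁻¹ • (y0 + star y0) := ⟨_, rfl⟩
  obtain ⟨hsy, hys, hya⟩ := odd_props (actA (-1)) haa hna hs1 has hsy0 hy1
  obtain ⟨y, hy⟩ : ∃ y : σA.TG, y = (2 : ℂ)⁻¹ • (y1 - actA (-1) y1) := ⟨_, rfl⟩
  rw [← hy] at hsy hys hya
  -- `y` is in the algebraic group algebra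
  have hy0m : (y0 : L2 GA →L[ℂ] L2 GA) ∈ σA.alg := by
    rw [hy0]
    exact σA.mem_alg_iff.2 ⟨f0, rfl⟩
  have hy1m : (y1 : L2 GA →L[ℂ] L2 GA) ∈ σA.alg := by
    rw [hy1]
    exact σA.alg.smul_mem (add_mem hy0m (star_mem hy0m)) _
  have hym : (y : L2 GA →L[ℂ] L2 GA) ∈ σA.alg := by
    rw [hy]
    exact σA.alg.smul_mem (sub_mem hy1m (alg_dual σA (κA (-1)) hy1m)) _
  obtain ⟨f, hf⟩ := σA.mem_alg_iff.1 hym
  have hfs : star (σA.Φ f) = σA.Φ f := by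
    rw [hf]
    exact congrArg Subtype.val hys
  have hfa : Bichar.Mo (Bichar.cf (κA (-1))) * σA.Φ f * star (Bichar.Mo (Bichar.cf (κA (-1))))
      = -σA.Φ f := by
    rw [hf]
    exact congrArg Subtype.val hya
  -- lower bound
  have hlow : ∀ ξ : L2 GA, (7 / 8 : ℝ) * ‖ξ‖ ≤ ‖σA.Φ f ξ‖ := by
    intro ξ
    have h1 : ‖(s : L2 GA →L[ℂ] L2 GA) ξ‖ = ‖ξ‖ := by
      refine norm_apply_of_unitary ?_ ξ
      have : star s * s = 1 := by rw [hs1, hs2]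
      exact congrArg Subtype.val this
    have h2 : ‖((s : L2 GA →L[ℂ] L2 GA) - σA.Φ f) ξ‖ ≤ 1 / 8 * ‖ξ‖ := by
      refine (ContinuousLinearMap.le_opNorm _ _).trans ?_
      refine mul_le_mul_of_nonneg_right ?_ (norm_nonneg _)
      rw [hf]
      exact hsy
    have h3 : (s : L2 GA →L[ℂ] L2 GA) ξ = ((s : L2 GA →L[ℂ] L2 GA) - σA.Φ f) ξ + σA.Φ f ξ := by
      rw [sub_apply, sub_add_cancel]
    have h4 := norm_add_le (((s : L2 GA →L[ℂ] L2 GA) - σA.Φ f) ξ) (σA.Φ f ξ)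
    rw [← h3, h1] at h4
    linarith
  -- the power of three
  obtain ⟨n, hn⟩ : ∃ n : ℕ, ∀ p ∈ f.support, zz p.2 ^ (3 ^ n) = 1 := by
    choose m hm using zz_pow
    refine ⟨∑ b ∈ f.support, m b.2, fun b hb => ?_⟩
    have h1 : m b.2 ≤ ∑ b ∈ f.support, m b.2 :=
      Finset.single_le_sum (f := fun b : GA => m b.2) (fun _ _ => Nat.zero_le _) hb
    obtain ⟨k, hk⟩ := Nat.exists_eq_add_of_le h1
    rw [hk, pow_add, pow_mul, hm, one_pow]
  have : NeZero (3 ^ n) := ⟨by positivity⟩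
  exact exists_bad (Odd.pow (by decide)) hn (fun p hp => coef_odd hfa hp)
    (coef_selfAdjoint hfs) (by norm_num : (0 : ℝ) < 7 / 8) hlow

/-- The action `α` does not have the Rokhlin property. -/
theorem not_rokhlin_actA : ¬ RokhlinProperty actA := by
  intro h
  obtain ⟨e, he, horth, hact, -, hsum⟩ := h ∅ (1 / 16) (by norm_num)
  have hsum' : e 1 + e (-1) = 1 := by
    have h1 : (Finset.univ : Finset ℤˣ) = {1, -1} := rfl
    rw [h1, Finset.sum_pair (by decide)] at hsum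
    exact hsum
  have h1 := hact (-1) 1
  have h2 := hact (-1) (-1)
  rw [mul_one] at h1
  have h3 : (-1 : ℤˣ) * -1 = 1 := by decide
  rw [h3] at h2
  obtain ⟨hs1, hs2, has⟩ := sym_props (actA (-1)) (he 1) (he (-1)) (horth _ _ (by decide))
    (horth _ _ (by decide)) hsum' h1 h2
  exact no_symmetry _ hs1 hs2 has

end Pool.Agent.Work.MP_7f0ddb_an
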