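import Mathlib
import Pool.Agent.Work.MP_7f0ddb_an.Groups
import Pool.Agent.Work.MP_7f0ddb_an.RokhlinGen

open scoped ENNReal InnerProductSpace ComplexConjugate TensorProduct

set_option linter.unusedSectionVars false

namespace Pool.Agent.Work.MP_7f0ddb_an

section Alg

variable {D : Type} [CStarAlgebra D]

/-- The self-adjoint unitary built from `w`, `X`, `Z`. -/
noncomputable def ss (w X Z : D) : D := w * X * sp 1 Z + star w * X * sp (-1) Z

theorem sp_X {X Z : D} (h : X * Z = -(Z * X)) (u : ℤˣ) : sp u Z * X = X * sp (-u) Z := by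
  have h' : Z * X = -(X * Z) := by rw [h, neg_neg]
  rw [sp, sp]
  simp only [smul_mul_assoc, mul_smul_comm, mul_add, add_mul, mul_one, one_mul, h', Units.val_neg,
    Int.cast_neg, neg_smul, smul_neg, mul_neg]

theorem star_comm {w X : D} (h1 : star w * w = 1) (h2 : w * star w = 1) (h : w * X = X * w) :
    star w * X = X * star w := by
  calc star w * X = star w * X * (w * star w) := by rw [h2, mul_one]
    _ = star w * (X * w) * star w := by simp only [mul_assoc]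
    _ = (star w * w) * X * star w := by rw [← h]; simp only [mul_assoc]
    _ = X * star w := by rw [h1, one_mul]

theorem sp_comm' {w Z : D} (h : w * Z = Z * w) (u : ℤˣ) : w * sp u Z = sp u Z * w := by
  rw [sp]
  simp only [smul_mul_assoc, mul_smul_comm, mul_add, add_mul, mul_one, one_mul, h]

variable {w X Z : D} (hw1 : star w * w = 1) (hw2 : w * star w = 1) (hX : star X = X)
  (hX2 : X * X = 1) (hZ : star Z = Z) (hZ2 : Z * Z = 1) (hXZ : X * Z = -(Z * X))
  (hwX : w * X = X * w) (hwZ : w * Z = Z * w)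

include hw1 hw2 hX hZ hXZ hwX hwZ in
theorem star_ss : star (ss w X Z) = ss w X Z := by
  have h1 := star_comm hw1 hw2 hwX
  have h2 := star_comm hw1 hw2 hwZ
  rw [ss, star_add, star_mul, star_mul, star_mul, star_mul, star_star, hX, star_sp hZ, star_sp hZ,
    ← mul_assoc, ← mul_assoc, sp_X hXZ, sp_X hXZ, neg_neg]
  rw [mul_assoc, mul_assoc X, ← sp_comm' h2, ← sp_comm' hwZ, ← mul_assoc, ← mul_assoc, ← h1, ← hwX,
    add_comm]

include hw1 hw2 hX2 hZ2 hXZ hwX hwZ in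
theorem ss_mul_ss : ss w X Z * ss w X Z = 1 := by
  have h1 := star_comm hw1 hw2 hwX
  have h2 := star_comm hw1 hw2 hwZ
  have hPP : sp 1 Z * sp 1 Z = sp 1 Z := sp_mul_self hZ2 1
  have hQQ : sp (-1) Z * sp (-1) Z = sp (-1) Z := sp_mul_self hZ2 (-1)
  have hPQ : sp 1 Z * sp (-1) Z = 0 := sp_mul_ne hZ2 (by decide)
  have hQP : sp (-1) Z * sp 1 Z = 0 := sp_mul_ne hZ2 (by decide)
  have hPX : sp 1 Z * X = X * sp (-1) Z := sp_X hXZ 1
  have hQX : sp (-1) Z * X = X * sp 1 Z := by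
    have := sp_X hXZ (-1)
    rwa [neg_neg] at this
  have hPw := sp_comm' hwZ 1
  have hQw := sp_comm' hwZ (-1)
  have hPw' := sp_comm' h2 1
  have hQw' := sp_comm' h2 (-1)
  have e1 : w * X * sp 1 Z * (w * X * sp 1 Z) = 0 := by
    calc w * X * sp 1 Z * (w * X * sp 1 Z) = w * X * (sp 1 Z * w) * X * sp 1 Z := by
          simp only [mul_assoc]
      _ = w * X * w * (sp 1 Z * X) * sp 1 Z := by rw [← hPw]; simp only [mul_assoc]
      _ = w * X * w * X * (sp (-1) Z * sp 1 Z) := by rw [hPX]; simp only [mul_assoc]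
      _ = 0 := by rw [hQP, mul_zero]
  have e2 : w * X * sp 1 Z * (star w * X * sp (-1) Z) = sp (-1) Z := by
    calc w * X * sp 1 Z * (star w * X * sp (-1) Z)
        = w * X * (sp 1 Z * star w) * X * sp (-1) Z := by simp only [mul_assoc]
      _ = w * X * star w * (sp 1 Z * X) * sp (-1) Z := by rw [← hPw']; simp only [mul_assoc]
      _ = w * (X * star w) * X * (sp (-1) Z * sp (-1) Z) := by rw [hPX]; simp only [mul_assoc]
      _ = (w * star w) * (X * X) * sp (-1) Z := by rw [hQQ, ← h1]; simp only [mul_assoc]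
      _ = sp (-1) Z := by rw [hw2, hX2, one_mul, one_mul]
  have e3 : star w * X * sp (-1) Z * (w * X * sp 1 Z) = sp 1 Z := by
    calc star w * X * sp (-1) Z * (w * X * sp 1 Z)
        = star w * X * (sp (-1) Z * w) * X * sp 1 Z := by simp only [mul_assoc]
      _ = star w * X * w * (sp (-1) Z * X) * sp 1 Z := by rw [← hQw]; simp only [mul_assoc]
      _ = star w * (X * w) * X * (sp 1 Z * sp 1 Z) := by rw [hQX]; simp only [mul_assoc]
      _ = (star w * w) * (X * X) * sp 1 Z := by rw [hPP, ← hwX]; simp only [mul_assoc]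
      _ = sp 1 Z := by rw [hw1, hX2, one_mul, one_mul]
  have e4 : star w * X * sp (-1) Z * (star w * X * sp (-1) Z) = 0 := by
    calc star w * X * sp (-1) Z * (star w * X * sp (-1) Z)
        = star w * X * (sp (-1) Z * star w) * X * sp (-1) Z := by simp only [mul_assoc]
      _ = star w * X * star w * (sp (-1) Z * X) * sp (-1) Z := by
          rw [← hQw']; simp only [mul_assoc]
      _ = star w * X * star w * X * (sp 1 Z * sp (-1) Z) := by rw [hQX]; simp only [mul_assoc]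
      _ = 0 := by rw [hPQ, mul_zero]
  rw [ss, mul_add, add_mul, add_mul, e1, e2, e3, e4, zero_add, add_zero, sp_one, sp_neg,
    ← smul_add]
  have : (1 : D) + Z + (1 - Z) = (2 : ℂ) • (1 : D) := by
    rw [two_smul]; abel
  rw [this, smul_smul]
  norm_num

theorem ss_comm {w X Z y : D} (h1 : star w * y = y * star w) (h2 : w * y = y * w)
    (h3 : X * y = y * X) (h4 : Z * y = y * Z) : ss w X Z * y = y * ss w X Z := by
  have h5 : ∀ u, sp u Z * y = y * sp u Z := fun u => (sp_comm' h4.symm u).symm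
  rw [ss, add_mul, mul_add]
  congr 1
  · rw [mul_assoc, h5, ← mul_assoc, mul_assoc w, h3, ← mul_assoc, h2]
    simp only [mul_assoc]
  · rw [mul_assoc, h5, ← mul_assoc, mul_assoc (star w), h3, ← mul_assoc, h1]
    simp only [mul_assoc]

theorem map_ss (φ : D ≃⋆ₐ[ℂ] D) {w X Z : D} {g h : ℤˣ} (hw : φ w = ((g : ℤ) : ℂ) • w)
    (hX : φ X = ((h : ℤ) : ℂ) • X) (hZ : φ Z = Z) :
    φ (ss w X Z) = (((g * h : ℤˣ) : ℤ) : ℂ) • ss w X Z := by
  have h1 : ∀ u, φ (sp u Z) = sp u Z := by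
    intro u
    rw [sp, map_smul, map_add, map_one, map_smul, hZ]
  rw [ss, map_add, map_mul, map_mul, map_mul, map_mul, map_star, hw, hX, h1, h1, star_smul,
    smul_add]
  have h2 : star (((g : ℤ) : ℂ)) = ((g : ℤ) : ℂ) := by simp
  rw [h2]
  simp only [smul_mul_assoc, mul_smul_comm, smul_smul]
  congr 2
  · push_cast; ring
  · push_cast; ring

end Alg

namespace Bichar

variable {Γ : Type} [AddCommGroup Γ] [DecidableEq Γ] (σ : Bichar Γ)

theorem u_comm_of {g h : Γ} (hχ : σ.χ g h = 1) : σ.u g * σ.u h = σ.u h * σ.u g := by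
  apply Subtype.ext
  show σ.U g * σ.U h = σ.U h * σ.U g
  rw [U_comm, hχ, Circle.coe_one, one_smul]

theorem star_u (g : Γ) : star (σ.u g) = (σ g g : ℂ) • σ.u (-g) :=
  Subtype.ext (σ.star_U g)

theorem u_mul (g h : Γ) : σ.u g * σ.u h = (σ g h : ℂ) • σ.u (g + h) :=
  Subtype.ext (σ.U_mul g h)

theorem u_zero : σ.u 0 = 1 := Subtype.ext σ.U_zero

theorem star_u_mul (g : Γ) : star (σ.u g) * σ.u g = 1 := Subtype.ext (σ.star_U_mul_U g)

theorem u_mul_star (g : Γ) : σ.u g * star (σ.u g) = 1 := Subtype.ext (σ.U_mul_star_U g)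

theorem dual_u (κ : Ch Γ) (g : Γ) : σ.dual κ (σ.u g) = (cf κ g : ℂ) • σ.u g :=
  Subtype.ext (σ.Mo_U κ g)

/-- The element `Φ f` of the algebra. -/
noncomputable def φ (f : Γ →₀ ℂ) : σ.TG := ⟨σ.Φ f, σ.Φ_mem f⟩

theorem φ_eq (f : Γ →₀ ℂ) : σ.φ f = ∑ g ∈ f.support, f g • σ.u g := by
  apply Subtype.ext
  show σ.Φ f = _
  rw [Bichar.Φ, Finsupp.linearCombination_apply, Finsupp.sum]
  simp [u]

/-- Unitaries commuting with enough group elements almost commute with a given finite set. -/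
theorem exists_finset (F : Finset σ.TG) {ε : ℝ} (hε : 0 < ε) :
    ∃ S : Finset Γ, ∀ x : σ.TG, star x * x = 1 → (∀ b ∈ S, x * σ.u b = σ.u b * x) →
      ∀ a ∈ F, ‖x * a - a * x‖ < ε := by
  classical
  have h1 : ∀ a : σ.TG, ∃ f : Γ →₀ ℂ, ‖a - σ.φ f‖ < ε / 2 := fun a =>
    σ.exists_approx a.2 (half_pos hε)
  choose f hf using h1
  refine ⟨F.biUnion fun a => (f a).support, fun x hx hb a ha => ?_⟩
  have h2 : x * σ.φ (f a) = σ.φ (f a) * x := by
    rw [φ_eq, Finset.mul_sum, Finset.sum_mul]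
    refine Finset.sum_congr rfl fun b hb' => ?_
    rw [mul_smul_comm, smul_mul_assoc, hb b (Finset.mem_biUnion.2 ⟨a, ha, hb'⟩)]
  have h3 : x * a - a * x = x * (a - σ.φ (f a)) - (a - σ.φ (f a)) * x := by
    rw [mul_sub, sub_mul, h2]
    abel
  have hx1 : ‖x‖ ≤ 1 := norm_le_one_of_unitary hx
  rw [h3]
  calc ‖x * (a - σ.φ (f a)) - (a - σ.φ (f a)) * x‖
      ≤ ‖x * (a - σ.φ (f a))‖ + ‖(a - σ.φ (f a)) * x‖ := norm_sub_le _ _
    _ ≤ ‖x‖ * ‖a - σ.φ (f a)‖ + ‖a - σ.φ (f a)‖ * ‖x‖ :=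
        add_le_add (norm_mul_le _ _) (norm_mul_le _ _)
    _ ≤ 1 * ‖a - σ.φ (f a)‖ + ‖a - σ.φ (f a)‖ * 1 := by gcongr
    _ < ε := by have := hf a; linarith

theorem u_comm_neg {g h : Γ} (hχ : (σ.χ g h : ℂ) = -1) : σ.u g * σ.u h = -(σ.u h * σ.u g) := by
  apply Subtype.ext
  show σ.U g * σ.U h = -(σ.U h * σ.U g)
  rw [U_comm, hχ, neg_one_smul]

end Bichar

theorem χ_prod {Γ₁ Γ₂ : Type} [AddCommGroup Γ₁] [DecidableEq Γ₁] [AddCommGroup Γ₂]
    [DecidableEq Γ₂] (σ₁ : Bichar Γ₁) (σ₂ : Bichar Γ₂) (p q : Γ₁ × Γ₂) :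
    (σ₁.prod σ₂).χ p q = σ₁.χ p.1 q.1 * σ₂.χ p.2 q.2 := by
  rw [Bichar.χ, Bichar.prod_apply, Bichar.prod_apply, Bichar.χ, Bichar.χ, mul_div_mul_comm]

theorem coe_toCircle_one : ((ZMod.toCircle (1 : ZMod 2) : Circle) : ℂ) = -1 := by
  have := ZMod.toCircle_natCast (N := 2) 1
  rw [Nat.cast_one] at this
  rw [this]
  have h : 2 * Real.pi * Complex.I * ((1 : ℕ) : ℂ) / ((2 : ℕ) : ℂ) = Real.pi * Complex.I := by
    push_cast
    ring
  rw [h, Complex.exp_pi_mul_I]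

theorem F2_neg (S : F2) : -S = S := by
  ext i
  rw [Finsupp.neg_apply, CharTwo.neg_eq]

theorem F2_add_self (S : F2) : S + S = 0 := by
  ext i
  rw [Finsupp.add_apply, CharTwo.add_self_eq_zero]
  rfl

theorem χA_apply (p q : GA) : σA.χ p q = zz p.2 ^ q.1 / zz q.2 ^ p.1 := rfl

/-- The group element of the unitary `w`. -/
noncomputable def gw (n : ℕ) : GA × GB := ((((3 ^ n : ℕ) : ℤ), 0), (0, 0))

/-- The group element of the unitary `X i`. -/
noncomputable def gX (i : ℕ) : GA × GB := ((0, 0), (Finsupp.single i 1, 0))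

/-- The group element of the unitary `Z i`. -/
noncomputable def gZ (i : ℕ) : GA × GB := ((0, 0), (0, Finsupp.single i 1))

theorem χ_w {n : ℕ} {b : GA × GB} (hb : zz b.1.2 ^ (3 ^ n) = 1) :
    (σA.prod σB).χ (gw n) b = 1 := by
  rw [χ_prod, χB, χA_apply]
  have h1 : (gw n).1.2 = 0 := rfl
  have h2 : (gw n).1.1 = ((3 ^ n : ℕ) : ℤ) := rfl
  have h3 : (gw n).2.1 = 0 := rfl
  have h4 : (gw n).2.2 = 0 := rfl
  rw [h1, h2, h3, h4, zz_zero, one_zpow, zpow_natCast, hb, pair_zero_left, pair_zero_right,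
    sub_zero, AddChar.map_zero_eq_one, div_one, mul_one]

theorem χ_X {i : ℕ} {b : GA × GB} (hb : b.2.2 i = 0) :
    (σA.prod σB).χ (gX i) b = 1 := by
  rw [χ_prod, χB, χA_apply]
  have h1 : (gX i).1.2 = 0 := rfl
  have h2 : (gX i).1.1 = 0 := rfl
  have h3 : (gX i).2.1 = Finsupp.single i 1 := rfl
  have h4 : (gX i).2.2 = 0 := rfl
  rw [h1, h2, h3, h4, zz_zero, one_zpow, zpow_zero, pair_zero_left, pair_single_right, hb,
    sub_zero, AddChar.map_zero_eq_one, div_one, mul_one]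

theorem χ_Z {i : ℕ} {b : GA × GB} (hb : b.2.1 i = 0) :
    (σA.prod σB).χ (gZ i) b = 1 := by
  rw [χ_prod, χB, χA_apply]
  have h1 : (gZ i).1.2 = 0 := rfl
  have h2 : (gZ i).1.1 = 0 := rfl
  have h3 : (gZ i).2.1 = 0 := rfl
  have h4 : (gZ i).2.2 = Finsupp.single i 1 := rfl
  rw [h1, h2, h3, h4, zz_zero, one_zpow, zpow_zero, pair_zero_right, pair_single_left, hb,
    sub_zero, AddChar.map_zero_eq_one, div_one, mul_one]

theorem χ_XZ (i : ℕ) : (((σA.prod σB).χ (gX i) (gZ i) : Circle) : ℂ) = -1 := by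
  rw [χ_prod, χB, χA_apply]
  have h1 : (gX i).1.2 = 0 := rfl
  have h2 : (gX i).1.1 = 0 := rfl
  have h3 : (gX i).2.1 = Finsupp.single i 1 := rfl
  have h4 : (gX i).2.2 = 0 := rfl
  have h5 : (gZ i).1.1 = 0 := rfl
  have h6 : (gZ i).2.1 = 0 := rfl
  have h7 : (gZ i).2.2 = Finsupp.single i 1 := rfl
  rw [h1, h2, h3, h4, h5, h6, h7, zz_zero, one_zpow, zpow_zero, pair_zero_left,
    pair_single_right, Finsupp.single_eq_same, zero_sub, CharTwo.neg_eq, div_one, one_mul,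
    coe_toCircle_one]

theorem star_uX (i : ℕ) : star ((σA.prod σB).u (gX i)) = (σA.prod σB).u (gX i) := by
  rw [Bichar.star_u, Bichar.prod_apply, σA_apply, σB_apply]
  have h1 : (gX i).1.2 = 0 := rfl
  have h4 : (gX i).2.2 = 0 := rfl
  have h5 : -(gX i) = gX i := Prod.ext neg_zero (Prod.ext (F2_neg _) neg_zero)
  rw [h1, h4, h5, zz_zero, one_zpow, pair_zero_left, AddChar.map_zero_eq_one, one_mul,
    Circle.coe_one, one_smul]

theorem star_uZ (i : ℕ) : star ((σA.prod σB).u (gZ i)) = (σA.prod σB).u (gZ i) := by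
  rw [Bichar.star_u, Bichar.prod_apply, σA_apply, σB_apply]
  have h1 : (gZ i).1.2 = 0 := rfl
  have h4 : (gZ i).2.1 = 0 := rfl
  have h5 : -(gZ i) = gZ i := Prod.ext neg_zero (Prod.ext neg_zero (F2_neg _))
  rw [h1, h4, h5, zz_zero, one_zpow, pair_zero_right, AddChar.map_zero_eq_one, one_mul,
    Circle.coe_one, one_smul]

theorem actD_u (g h : ℤˣ) (b : GA × GB) : actD (g, h) ((σA.prod σB).u b)
    = ((sg g ^ b.1.1 * sg (h ^ tot b.2.1) : Circle) : ℂ) • (σA.prod σB).u b :=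
  (σA.prod σB).dual_u (κD (g, h)) b

theorem actD_w (g h : ℤˣ) (n : ℕ) : actD (g, h) ((σA.prod σB).u (gw n))
    = ((g : ℤ) : ℂ) • (σA.prod σB).u (gw n) := by
  rw [actD_u]
  have h2 : (gw n).1.1 = ((3 ^ n : ℕ) : ℤ) := rfl
  have h3 : (gw n).2.1 = 0 := rfl
  have h4 : g ^ (3 ^ n) = g := by
    rw [Int.units_pow_eq_pow_mod_two]
    have : 3 ^ n % 2 = 1 := Nat.odd_iff.1 (Odd.pow (by decide))
    rw [this, pow_one]
  rw [h2, h3, tot_zero, uzpow_zero, map_one, mul_one, zpow_natCast, ← map_pow, h4, coe_sg]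

theorem actD_X (g h : ℤˣ) (i : ℕ) : actD (g, h) ((σA.prod σB).u (gX i))
    = ((h : ℤ) : ℂ) • (σA.prod σB).u (gX i) := by
  rw [actD_u]
  have h2 : (gX i).1.1 = 0 := rfl
  have h3 : (gX i).2.1 = Finsupp.single i 1 := rfl
  rw [h2, h3, zpow_zero, one_mul, tot_single, uzpow_one, coe_sg]

theorem actD_Z (g h : ℤˣ) (i : ℕ) : actD (g, h) ((σA.prod σB).u (gZ i))
    = (σA.prod σB).u (gZ i) := by
  rw [actD_u]
  have h2 : (gZ i).1.1 = 0 := rfl
  have h3 : (gZ i).2.1 = 0 := rfl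
  rw [h2, h3, zpow_zero, one_mul, tot_zero, uzpow_zero, map_one, Circle.coe_one, one_smul]

/-- The product action has the Rokhlin property. -/
theorem rokhlin_actD : RokhlinProperty actD := by
  refine rokhlin_of_exists actD fun F ε hε => ?_
  obtain ⟨S, hS⟩ := (σA.prod σB).exists_finset F hε
  -- the power of three
  have hn : ∃ n : ℕ, ∀ b ∈ S, zz b.1.2 ^ (3 ^ n) = 1 := by
    choose m hm using zz_pow
    refine ⟨∑ b ∈ S, m b.1.2, fun b hb => ?_⟩
    have h1 : m b.1.2 ≤ ∑ b ∈ S, m b.1.2 :=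
      Finset.single_le_sum (f := fun b => m b.1.2) (fun _ _ => Nat.zero_le _) hb
    obtain ⟨k, hk⟩ := Nat.exists_eq_add_of_le h1
    rw [hk, pow_add, pow_mul, hm, one_pow]
  obtain ⟨n, hn⟩ := hn
  -- the index
  have hM : ∃ M : ℕ, ∀ b ∈ S, ∀ i, M ≤ i → b.2.1 i = 0 ∧ b.2.2 i = 0 := by
    obtain ⟨M, hM⟩ := Finset.exists_nat_subset_range
      (S.biUnion fun b => b.2.1.support ∪ b.2.2.support)
    refine ⟨M, fun b hb i hi => ?_⟩
    have h1 : i ∉ b.2.1.support ∪ b.2.2.support := fun h =>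
      absurd (Finset.mem_range.1 (hM (Finset.mem_biUnion.2 ⟨b, hb, h⟩))) (not_lt.2 hi)
    rw [Finset.mem_union, not_or, Finsupp.notMem_support_iff, Finsupp.notMem_support_iff] at h1
    exact h1
  obtain ⟨M, hM⟩ := hM
  have cw : ∀ b : GA × GB, zz b.1.2 ^ (3 ^ n) = 1 →
      (σA.prod σB).u (gw n) * (σA.prod σB).u b = (σA.prod σB).u b * (σA.prod σB).u (gw n) :=
    fun b hb => (σA.prod σB).u_comm_of (χ_w hb)
  have cX : ∀ (i : ℕ) (b : GA × GB), b.2.2 i = 0 →
      (σA.prod σB).u (gX i) * (σA.prod σB).u b = (σA.prod σB).u b * (σA.prod σB).u (gX i) :=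
    fun i b hb => (σA.prod σB).u_comm_of (χ_X hb)
  have cZ : ∀ (i : ℕ) (b : GA × GB), b.2.1 i = 0 →
      (σA.prod σB).u (gZ i) * (σA.prod σB).u b = (σA.prod σB).u b * (σA.prod σB).u (gZ i) :=
    fun i b hb => (σA.prod σB).u_comm_of (χ_Z hb)
  have hone : ∀ k : ℕ, zz (0 : RA) ^ k = 1 := fun k => by rw [zz_zero, one_pow]
  have hwX := cw (gX M) (hone _)
  have hwZ := cw (gZ M) (hone _)
  have hXZ : (σA.prod σB).u (gX M) * (σA.prod σB).u (gZ M)
      = -((σA.prod σB).u (gZ M) * (σA.prod σB).u (gX M)) := (σA.prod σB).u_comm_neg (χ_XZ M)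
  have hX2 : ∀ i, (σA.prod σB).u (gX i) * (σA.prod σB).u (gX i) = 1 := by
    intro i
    have := (σA.prod σB).star_u_mul (gX i)
    rwa [star_uX] at this
  have hZ2 : (σA.prod σB).u (gZ M) * (σA.prod σB).u (gZ M) = 1 := by
    have := (σA.prod σB).star_u_mul (gZ M)
    rwa [star_uZ] at this
  have hw1 := (σA.prod σB).star_u_mul (gw n)
  have hw2 := (σA.prod σB).u_mul_star (gw n)
  have hs := star_ss hw1 hw2 (star_uX M) (star_uZ M) hXZ hwX hwZ
  have hs2 := ss_mul_ss hw1 hw2 (hX2 M) hZ2 hXZ hwX hwZ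
  have hqw := cw (gX (M + 1)) (hone _)
  have hqX : (σA.prod σB).u (gX M) * (σA.prod σB).u (gX (M + 1))
      = (σA.prod σB).u (gX (M + 1)) * (σA.prod σB).u (gX M) := cX M (gX (M + 1)) rfl
  have hqZ : (σA.prod σB).u (gZ M) * (σA.prod σB).u (gX (M + 1))
      = (σA.prod σB).u (gX (M + 1)) * (σA.prod σB).u (gZ M) := by
    refine cZ M (gX (M + 1)) ?_
    show Finsupp.single (M + 1) (1 : ZMod 2) M = 0
    exact Finsupp.single_eq_of_ne (by omega)
  refine ⟨ss ((σA.prod σB).u (gw n)) ((σA.prod σB).u (gX M)) ((σA.prod σB).u (gZ M)),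
    (σA.prod σB).u (gX (M + 1)), hs, hs2, star_uX (M + 1), hX2 (M + 1), ?_, ?_, ?_, ?_, ?_⟩
  · exact ss_comm (star_comm hw1 hw2 hqw) hqw hqX hqZ
  · intro g h
    exact map_ss _ (actD_w g h n) (actD_X g h M) (actD_Z g h M)
  · intro g h
    exact actD_X g h (M + 1)
  · refine hS _ ?_ fun b hb => ?_
    · rw [hs, hs2]
    · have hw := cw b (hn b hb)
      exact ss_comm (star_comm hw1 hw2 hw) hw (cX M b (hM b hb M le_rfl).2)
        (cZ M b (hM b hb M le_rfl).1)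
  · refine hS _ ?_ fun b hb => ?_
    · rw [star_uX]
      exact hX2 _
    · exact cX (M + 1) b (hM b hb (M + 1) (Nat.le_succ _)).2

end Pool.Agent.Work.MP_7f0ddb_an
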